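import Mathlib

set_option autoImplicit false
open Filter Topology Set

namespace Pool.Agent.K3h25.SumG

/-- The Gauss map. -/
noncomputable abbrev T : ℝ → ℝ := fun y : ℝ => Int.fract (1 / y)

/-- partial solutions of the recursion -/
lemma exists_fin (n : ℕ) : ∀ (a : ℕ → ℕ), (∀ n, 1 ≤ a n) →
    ∃ y : ℕ → ℝ, (∀ k, y k ∈ Icc (0:ℝ) 1) ∧ ∀ k < n, y k * (a k + y (k + 1)) = 1 := by
  induction n with
  | zero =>
    intro a _
    exact ⟨fun _ => 0, fun _ => ⟨le_rfl, zero_le_one⟩, fun k hk => absurd hk (Nat.not_lt_zero k)⟩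
  | succ n ih =>
    intro a ha
    obtain ⟨y, hy, hy2⟩ := ih (fun k => a (k + 1)) (fun k => ha (k + 1))
    have h1 : (1:ℝ) ≤ a 0 := by exact_mod_cast ha 0
    have hpos : (0:ℝ) < a 0 + y 0 := by linarith [(hy 0).1]
    refine ⟨fun k => Nat.rec (1 / (a 0 + y 0)) (fun j _ => y j) k, ?_, ?_⟩
    · intro k
      cases k with
      | zero =>
        change 0 ≤ 1 / ((a 0 : ℝ) + y 0) ∧ 1 / ((a 0 : ℝ) + y 0) ≤ 1
        refine ⟨by positivity, ?_⟩
        rw [div_le_one hpos]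
        linarith [(hy 0).1]
      | succ j => exact hy j
    · intro k hk
      cases k with
      | zero =>
        change 1 / ((a 0 : ℝ) + y 0) * ((a 0 : ℝ) + y 0) = 1
        field_simp
      | succ j => exact hy2 j (by omega)

/-- Existence of a real number with prescribed partial quotients; `y n` is the `n`-th iterate of
the Gauss map. -/
theorem exists_seq (a : ℕ → ℕ) (ha : ∀ n, 1 ≤ a n) :
    ∃ y : ℕ → ℝ, ∀ n, 0 < y n ∧ y n < 1 ∧ y n * (a n + y (n + 1)) = 1 := by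
  obtain ⟨S, hS⟩ : ∃ S : ℕ → Set (ℕ → ℝ), S = fun n => {y : ℕ → ℝ | (∀ k, y k ∈ Icc (0:ℝ) 1) ∧
    ∀ k < n, y k * (a k + y (k + 1)) = 1} := ⟨_, rfl⟩
  have hclosed : ∀ n, IsClosed (S n) := by
    intro n
    rw [hS]
    simp only [Set.ofPred_and, Set.ofPred_forall]
    refine IsClosed.inter (isClosed_iInter fun k => ?_) (isClosed_iInter fun k =>
      isClosed_iInter fun _ => ?_)
    · exact isClosed_Icc.preimage (continuous_apply k)
    · exact isClosed_eq (by fun_prop) continuous_const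
  have hcomp : IsCompact (S 0) := by
    have h1 : IsCompact (Set.pi univ (fun _ : ℕ => Icc (0:ℝ) 1)) :=
      isCompact_univ_pi fun _ => isCompact_Icc
    refine h1.of_isClosed_subset (hclosed 0) ?_
    intro y hy
    rw [hS] at hy
    exact fun k _ => hy.1 k
  have hmono : ∀ n, S (n + 1) ⊆ S n := by
    intro n y hy
    rw [hS] at hy ⊢
    exact ⟨hy.1, fun k hk => hy.2 k (by omega)⟩
  have hne : ∀ n, (S n).Nonempty := by
    intro n
    obtain ⟨y, hy⟩ := exists_fin n a ha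
    exact ⟨y, by rw [hS]; exact hy⟩
  obtain ⟨y, hy⟩ := IsCompact.nonempty_iInter_of_sequence_nonempty_isCompact_isClosed S hmono hne
    hcomp hclosed
  rw [mem_iInter] at hy
  have hy1 : ∀ k, y k ∈ Icc (0:ℝ) 1 := by
    have := hy 0
    rw [hS] at this
    exact this.1
  have hy2 : ∀ k, y k * (a k + y (k + 1)) = 1 := by
    intro k
    have := hy (k + 1)
    rw [hS] at this
    exact this.2 k (by omega)
  have hpos : ∀ k, 0 < y k := by
    intro k
    refine lt_of_le_of_ne (hy1 k).1 ?_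
    intro h0
    have := hy2 k
    rw [← h0, zero_mul] at this
    exact zero_ne_one this
  refine ⟨y, fun n => ⟨hpos n, ?_, hy2 n⟩⟩
  by_contra hge
  push Not at hge
  have h1 : (1:ℝ) ≤ a n := by exact_mod_cast ha n
  have h2 := hpos (n + 1)
  have h3 := hy2 n
  nlinarith

/-- one step of the Gauss map -/
lemma T_step {y y' : ℝ} {a : ℕ} (h' : 0 < y') (h1 : y' < 1)
    (h : y * (a + y') = 1) : ⌊1 / y⌋ = (a : ℤ) ∧ T y = y' := by
  have hy : 1 / y = a + y' := by
    have hne : y ≠ 0 := by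
      rintro rfl
      simp at h
    field_simp
    linarith
  constructor
  · rw [hy, Int.floor_eq_iff]
    push_cast
    constructor <;> linarith
  · change Int.fract (1 / y) = y'
    rw [hy, Int.fract_eq_iff]
    exact ⟨h'.le, h1, a, by push_cast; ring⟩

lemma T_iter {y : ℕ → ℝ} {a : ℕ → ℕ} (h : ∀ n, 0 < y n ∧ y n < 1 ∧ y n * (a n + y (n + 1)) = 1)
    (n : ℕ) : T^[n] (y 0) = y n := by
  induction n with
  | zero => rfl
  | succ n ih =>
    rw [Function.iterate_succ_apply', ih]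
    exact (T_step (h (n + 1)).1 (h (n + 1)).2.1 (h n).2.2).2

/-- The partial quotients of `g` tend to infinity. -/
def Good (g : ℝ) : Prop :=
  Tendsto (fun n : ℕ => ⌊1 / ((fun y : ℝ => Int.fract (1 / y))^[n] g)⌋) atTop atTop

lemma good_of_seq {y : ℕ → ℝ} {a : ℕ → ℕ}
    (h : ∀ n, 0 < y n ∧ y n < 1 ∧ y n * (a n + y (n + 1)) = 1)
    (ha : Tendsto (fun n => (a n : ℝ)) atTop atTop) : Good (y 0) := by
  have h1 : (fun n : ℕ => ⌊1 / ((fun y : ℝ => Int.fract (1 / y))^[n] (y 0))⌋) =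
      fun n => (a n : ℤ) := by
    funext n
    have := T_iter h n
    change ⌊1 / (T^[n] (y 0))⌋ = _
    rw [this]
    exact (T_step (h (n + 1)).1 (h (n + 1)).2.1 (h n).2.2).1
  unfold Good
  rw [h1]
  have h2 : Tendsto (fun n => (((a n : ℤ)) : ℝ)) atTop atTop := by
    simpa using ha
  exact tendsto_intCast_atTop_iff.1 h2

lemma good_of_iter {g : ℝ} (k : ℕ) (h : Good (T^[k] g)) : Good g := by
  unfold Good at h ⊢
  rw [← tendsto_add_atTop_iff_nat k]
  refine h.congr fun n => ?_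
  rw [Function.iterate_add_apply]


/-- The data of the greedy algorithm. -/
structure Greedy (x : ℝ) where
  (a b : ℕ → ℕ)
  (P U V Q : ℕ → ℝ)
  a1 : ∀ n, 1 ≤ a n
  b1 : ∀ n, 1 ≤ b n
  P0 : P 0 = x
  U0 : U 0 = 1
  V0 : V 0 = 1
  Q0 : Q 0 = 0
  QS : ∀ n, Q (n + 1) = P n
  Ppos : ∀ n, 0 < P n
  Plt : ∀ n, P n < 1
  Upos : ∀ n, 0 < U n
  Vpos : ∀ n, 0 < V n
  VS : ∀ n, V (n + 1) = b n * P n - U n
  US : ∀ n, U (n + 1) = a n * P n - V n
  det : ∀ n, P n * P (n + 1) + U (n + 1) * V (n + 1) = 1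
  VP : ∀ n, V (n + 1) ≤ P n
  PV : ∀ n, P (n + 1) ≤ V (n + 1)

/-- One step of the greedy algorithm. -/
lemma greedy_step {p X Y : ℝ} (hp : 0 < p) (hp1 : p < 1) (hX : 0 < X) (hY : 0 < Y) :
    ∃ (a b : ℕ) (p' X' Y' : ℝ), 1 ≤ a ∧ 1 ≤ b ∧ 0 < p' ∧ p' < 1 ∧ 0 < X' ∧ 0 < Y' ∧
      Y' = b * p - X ∧ X' = a * p - Y ∧ p * p' + X' * Y' = 1 ∧ Y' ≤ p ∧ p' ≤ Y' := by
  obtain ⟨b, hb⟩ : ∃ b : ℕ, b = ⌊X / p⌋₊ + 1 := ⟨_, rfl⟩
  have hb1 : X / p < b := by rw [hb]; push_cast; exact Nat.lt_floor_add_one _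
  have hb2 : (b : ℝ) ≤ X / p + 1 := by
    rw [hb]; push_cast
    linarith [Nat.floor_le (show 0 ≤ X / p by positivity)]
  have hY'0 : 0 < b * p - X := by
    rw [div_lt_iff₀ hp] at hb1
    linarith
  have hY'1 : b * p - X ≤ p := by
    have : (b : ℝ) * p ≤ (X / p + 1) * p := mul_le_mul_of_nonneg_right hb2 hp.le
    have e : (X / p + 1) * p = X + p := by field_simp
    linarith
  obtain ⟨Y', hY'⟩ : ∃ Y' : ℝ, Y' = b * p - X := ⟨_, rfl⟩
  rw [← hY'] at hY'0 hY'1
  obtain ⟨t, ht⟩ : ∃ t : ℝ, t = (1 / Y' + Y) / p := ⟨_, rfl⟩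
  have hY'inv : 1 < 1 / Y' := by rw [lt_div_iff₀ hY'0]; linarith
  have htp : t * p = 1 / Y' + Y := by rw [ht]; field_simp
  have ht1 : 1 < t := by
    by_contra h
    push Not at h
    have : t * p ≤ 1 * p := mul_le_mul_of_nonneg_right h hp.le
    linarith
  -- a = ⌈t⌉ - 1
  obtain ⟨a, ha⟩ : ∃ a : ℕ, a + 1 = ⌈t⌉₊ := by
    have : 0 < ⌈t⌉₊ := Nat.ceil_pos.2 (by linarith)
    exact ⟨⌈t⌉₊ - 1, by omega⟩
  have ha1 : (a : ℝ) < t := by
    have h1 := Nat.ceil_lt_add_one (show 0 ≤ t by linarith)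
    rw [← ha] at h1
    push_cast at h1
    linarith
  have ha2 : t ≤ a + 1 := by
    have h1 := Nat.le_ceil t
    rw [← ha] at h1
    push_cast at h1
    linarith
  have hapos : 1 ≤ a := by
    by_contra h
    have : a = 0 := by omega
    rw [this] at ha2
    push_cast at ha2
    linarith
  have hX'1 : a * p - Y < 1 / Y' := by
    have := mul_lt_mul_of_pos_right ha1 hp
    linarith
  have hX'2 : 1 / Y' - p ≤ a * p - Y := by
    have := mul_le_mul_of_nonneg_right ha2 hp.le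
    linarith
  obtain ⟨X', hX'⟩ : ∃ X' : ℝ, X' = a * p - Y := ⟨_, rfl⟩
  rw [← hX'] at hX'1 hX'2
  have hXY : X' * Y' < 1 := by
    have := mul_lt_mul_of_pos_right hX'1 hY'0
    rwa [one_div, inv_mul_cancel₀ hY'0.ne'] at this
  have hXY2 : 1 - p * Y' ≤ X' * Y' := by
    have := mul_le_mul_of_nonneg_right hX'2 hY'0.le
    rw [sub_mul, one_div, inv_mul_cancel₀ hY'0.ne'] at this
    exact this
  have hp' : (1 - X' * Y') / p ≤ Y' := by
    rw [div_le_iff₀ hp]
    linarith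
  refine ⟨a, b, (1 - X' * Y') / p, X', Y', hapos, by omega, by
    apply div_pos _ hp; linarith, by linarith, by linarith, hY'0, hY', hX', ?_, hY'1, hp'⟩
  field_simp
  ring

/-- The greedy algorithm can be run. -/
theorem exists_greedy {x : ℝ} (hx : 0 < x) (hx1 : x < 1) : Nonempty (Greedy x) := by
  have key : ∀ s : {s : ℝ × ℝ × ℝ // 0 < s.1 ∧ s.1 < 1 ∧ 0 < s.2.1 ∧ 0 < s.2.2},
      ∃ (a b : ℕ) (s' : {s : ℝ × ℝ × ℝ // 0 < s.1 ∧ s.1 < 1 ∧ 0 < s.2.1 ∧ 0 < s.2.2}),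
        1 ≤ a ∧ 1 ≤ b ∧ s'.1.2.2 = b * s.1.1 - s.1.2.1 ∧ s'.1.2.1 = a * s.1.1 - s.1.2.2 ∧
        s.1.1 * s'.1.1 + s'.1.2.1 * s'.1.2.2 = 1 ∧ s'.1.2.2 ≤ s.1.1 ∧ s'.1.1 ≤ s'.1.2.2 := by
    rintro ⟨⟨p, X, Y⟩, h1, h2, h3, h4⟩
    obtain ⟨a, b, p', X', Y', g1, g2, g3, g4, g5, g6, g7, g8, g9, g10, g11⟩ :=
      greedy_step h1 h2 h3 h4
    exact ⟨a, b, ⟨⟨p', X', Y'⟩, g3, g4, g5, g6⟩, g1, g2, g7, g8, g9, g10, g11⟩
  choose a b nxt hk using key
  obtain ⟨s0, hs0⟩ : ∃ s0 : {s : ℝ × ℝ × ℝ // 0 < s.1 ∧ s.1 < 1 ∧ 0 < s.2.1 ∧ 0 < s.2.2},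
      s0.1 = (x, 1, 1) := ⟨⟨(x, 1, 1), hx, hx1, one_pos, one_pos⟩, rfl⟩
  obtain ⟨s, hs⟩ : ∃ s : ℕ → {s : ℝ × ℝ × ℝ // 0 < s.1 ∧ s.1 < 1 ∧ 0 < s.2.1 ∧ 0 < s.2.2},
      s = fun n => nxt^[n] s0 := ⟨_, rfl⟩
  have hsS : ∀ n, s (n + 1) = nxt (s n) := fun n => by
    rw [hs]
    exact Function.iterate_succ_apply' nxt n s0
  have hs00 : (s 0).1 = (x, 1, 1) := by rw [hs]; exact hs0
  exact ⟨{
    a := fun n => a (s n)
    b := fun n => b (s n)
    P := fun n => (s n).1.1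
    U := fun n => (s n).1.2.1
    V := fun n => (s n).1.2.2
    Q := fun n => Nat.rec 0 (fun j _ => (s j).1.1) n
    a1 := fun n => (hk (s n)).1
    b1 := fun n => (hk (s n)).2.1
    P0 := by rw [hs00]
    U0 := by rw [hs00]
    V0 := by rw [hs00]
    Q0 := rfl
    QS := fun n => rfl
    Ppos := fun n => (s n).2.1
    Plt := fun n => (s n).2.2.1
    Upos := fun n => (s n).2.2.2.1
    Vpos := fun n => (s n).2.2.2.2
    VS := fun n => by rw [hsS]; exact (hk (s n)).2.2.1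
    US := fun n => by rw [hsS]; exact (hk (s n)).2.2.2.1
    det := fun n => by rw [hsS]; exact (hk (s n)).2.2.2.2.1
    VP := fun n => by rw [hsS]; exact (hk (s n)).2.2.2.2.2.1
    PV := fun n => by rw [hsS]; exact (hk (s n)).2.2.2.2.2.2 }⟩

namespace Greedy

variable {x : ℝ} (G : Greedy x)
include G

lemma det' (n : ℕ) : G.P n * G.Q n + G.U n * G.V n = 1 := by
  cases n with
  | zero => rw [G.Q0, G.U0, G.V0]; ring
  | succ n => rw [G.QS]; linarith [G.det n]

lemma Q_nonneg (n : ℕ) : 0 ≤ G.Q n := by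
  cases n with
  | zero => rw [G.Q0]
  | succ n => rw [G.QS]; exact (G.Ppos n).le

lemma Q_le (n : ℕ) : G.Q n ≤ 1 := by
  cases n with
  | zero => rw [G.Q0]; exact zero_le_one
  | succ n => rw [G.QS]; exact (G.Plt n).le

lemma P_rec (n : ℕ) : G.P (n + 1) =
    G.Q n + G.a n * G.U n + G.b n * G.V n - G.a n * G.b n * G.P n := by
  have h1 := G.det n
  have h2 := G.det' n
  rw [G.US, G.VS] at h1
  apply mul_left_cancel₀ (G.Ppos n).ne'
  linear_combination h1 - h2

lemma P_anti : Antitone G.P := antitone_nat_of_succ_le fun n => (G.PV n).trans (G.VP n)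

lemma aP (n : ℕ) : 1 / G.P n ^ 2 - 1 ≤ (G.a n : ℝ) := by
  have hP := G.Ppos n
  have h1 := G.det n
  have h2 := G.VP n
  have h3 := G.PV n
  have h4 := G.US n
  have h5 := G.Vpos (n + 1)
  have h6 := G.Upos (n + 1)
  have h7 := G.Vpos n
  -- U' V' = 1 - P P' ≥ 1 - P^2
  have h8 : 1 - G.P n ^ 2 ≤ G.U (n + 1) * G.V (n + 1) := by nlinarith
  have h9 : G.U (n + 1) * G.V (n + 1) ≤ G.U (n + 1) * G.P n :=
    mul_le_mul_of_nonneg_left h2 h6.le
  have h10 : G.U (n + 1) ≤ G.a n * G.P n := by linarith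
  have h11 : G.U (n + 1) * G.P n ≤ G.a n * G.P n * G.P n :=
    mul_le_mul_of_nonneg_right h10 hP.le
  rw [sub_le_iff_le_add, div_le_iff₀ (by positivity)]
  nlinarith

lemma bP (n : ℕ) : 1 / G.P n ^ 2 - 1 ≤ (G.b (n + 1) : ℝ) := by
  have hP := G.Ppos n
  have hP' := G.Ppos (n + 1)
  have h1 := G.det n
  have h2 := G.VP n
  have h3 := G.PV n
  have h4 := G.VS (n + 1)
  have h5 := G.Vpos (n + 1)
  have h6 := G.Upos (n + 1)
  have h7 := G.Vpos (n + 1 + 1)
  have h8 : 1 - G.P n ^ 2 ≤ G.U (n + 1) * G.V (n + 1) := by nlinarith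
  have h9 : G.U (n + 1) * G.V (n + 1) ≤ G.U (n + 1) * G.P n :=
    mul_le_mul_of_nonneg_left h2 h6.le
  have h10 : G.U (n + 1) ≤ G.b (n + 1) * G.P (n + 1) := by linarith
  have h11 : (G.b (n + 1) : ℝ) * G.P (n + 1) ≤ G.b (n + 1) * G.P n :=
    mul_le_mul_of_nonneg_left (h3.trans h2) (Nat.cast_nonneg _)
  have h12 : G.U (n + 1) * G.P n ≤ G.b (n + 1) * G.P n * G.P n :=
    mul_le_mul_of_nonneg_right (h10.trans h11) hP.le
  rw [sub_le_iff_le_add, div_le_iff₀ (by positivity)]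
  nlinarith

/-- If `P → 0` then the partial quotients tend to infinity. -/
lemma a_tendsto (h : Tendsto G.P atTop (𝓝 0)) : Tendsto (fun n => (G.a n : ℝ)) atTop atTop := by
  have h1 : Tendsto (fun n => 1 / G.P n ^ 2 - 1) atTop atTop := by
    have h2 : Tendsto (fun n => G.P n ^ 2) atTop (𝓝[>] 0) := by
      refine tendsto_nhdsWithin_iff.2 ⟨?_, Eventually.of_forall fun n => pow_pos (G.Ppos n) 2⟩
      simpa using h.pow 2
    have h3 := tendsto_inv_nhdsGT_zero.comp h2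
    have h4 := tendsto_atTop_add_const_right atTop (-1 : ℝ) h3
    refine h4.congr fun n => ?_
    simp [sub_eq_add_neg]
  exact tendsto_atTop_mono (fun n => G.aP n) h1

lemma b_tendsto (h : Tendsto G.P atTop (𝓝 0)) : Tendsto (fun n => (G.b n : ℝ)) atTop atTop := by
  rw [← tendsto_add_atTop_iff_nat 1]
  have h1 : Tendsto (fun n => 1 / G.P n ^ 2 - 1) atTop atTop := by
    have h2 : Tendsto (fun n => G.P n ^ 2) atTop (𝓝[>] 0) := by
      refine tendsto_nhdsWithin_iff.2 ⟨?_, Eventually.of_forall fun n => pow_pos (G.Ppos n) 2⟩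
      simpa using h.pow 2
    have h3 := tendsto_inv_nhdsGT_zero.comp h2
    have h4 := tendsto_atTop_add_const_right atTop (-1 : ℝ) h3
    refine h4.congr fun n => ?_
    simp [sub_eq_add_neg]
  exact tendsto_atTop_mono (fun n => G.bP n) h1

/-- The sum of the two numbers is `x`. -/
lemma sum_eq (h : Tendsto G.P atTop (𝓝 0)) {y z : ℕ → ℝ}
    (hy : ∀ n, 0 < y n ∧ y n < 1 ∧ y n * (G.a n + y (n + 1)) = 1)
    (hz : ∀ n, 0 < z n ∧ z n < 1 ∧ z n * (G.b n + z (n + 1)) = 1) : x = y 0 + z 0 := by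
  obtain ⟨L, hL⟩ : ∃ L : ℕ → ℝ, L = fun n => G.P n - G.U n * z n - G.V n * y n -
    G.Q n * (y n * z n) := ⟨_, rfl⟩
  have hrec : ∀ n, L n = -(y n * z n) * L (n + 1) := by
    intro n
    rw [hL]
    simp only
    rw [G.P_rec, G.QS, G.US, G.VS]
    have h1 := (hy n).2.2
    have h2 := (hz n).2.2
    obtain ⟨A, hA⟩ : ∃ A : ℝ, A = G.a n := ⟨_, rfl⟩
    obtain ⟨B, hB⟩ : ∃ B : ℝ, B = G.b n := ⟨_, rfl⟩
    rw [← hA] at h1 ⊢
    rw [← hB] at h2 ⊢
    linear_combination (G.U n * z n - G.P n * (z n * (B + z (n + 1)))) * h1 +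
      (G.V n * y n - G.P n) * h2
  have hbound : ∀ n, |L n| ≤ 4 := by
    intro n
    have h1 := hy n
    have h2 := hz n
    have h3 := hy (n + 1)
    have h4 := hz (n + 1)
    have hP := G.Ppos n
    have hP1 := G.Plt n
    have hU := G.Upos n
    have hV := G.Vpos n
    have hQ := G.Q_nonneg n
    have hQ1 := G.Q_le n
    -- U z ≤ P
    have e1 : G.U n ≤ G.b n * G.P n := by linarith [G.VS n, G.Vpos (n + 1)]
    have e2 : z n * G.b n ≤ 1 := by nlinarith [mul_pos h2.1 h4.1]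
    have e3 : G.U n * z n ≤ G.P n := by
      calc G.U n * z n ≤ G.b n * G.P n * z n := mul_le_mul_of_nonneg_right e1 h2.1.le
        _ = (z n * G.b n) * G.P n := by ring
        _ ≤ 1 * G.P n := mul_le_mul_of_nonneg_right e2 hP.le
        _ = G.P n := one_mul _
    have f1 : G.V n ≤ G.a n * G.P n := by linarith [G.US n, G.Upos (n + 1)]
    have f2 : y n * G.a n ≤ 1 := by nlinarith [mul_pos h1.1 h3.1]
    have f3 : G.V n * y n ≤ G.P n := by
      calc G.V n * y n ≤ G.a n * G.P n * y n := mul_le_mul_of_nonneg_right f1 h1.1.le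
        _ = (y n * G.a n) * G.P n := by ring
        _ ≤ 1 * G.P n := mul_le_mul_of_nonneg_right f2 hP.le
        _ = G.P n := one_mul _
    have g1 : 0 ≤ G.U n * z n := by have := h2.1; positivity
    have g2 : 0 ≤ G.V n * y n := by have := h1.1; positivity
    have g3 : 0 ≤ y n * z n := by have := h1.1; have := h2.1; positivity
    have g4 : y n * z n ≤ 1 := by nlinarith [h1.1, h2.1, h1.2.1, h2.2.1]
    have g5 : 0 ≤ G.Q n * (y n * z n) := mul_nonneg hQ g3
    have g6 : G.Q n * (y n * z n) ≤ 1 := by nlinarith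
    rw [hL]
    simp only
    rw [abs_le]
    constructor <;> linarith
  -- eventually `y n ≤ 1 / 2`
  obtain ⟨n0, hn0⟩ : ∃ n0, ∀ n ≥ n0, (2:ℝ) ≤ G.a n := by
    have := (G.a_tendsto h).eventually_ge_atTop 2
    exact eventually_atTop.1 this
  have hhalf : ∀ n ≥ n0, |L n| ≤ (1 / 2) * |L (n + 1)| := by
    intro n hn
    rw [hrec n, abs_mul, abs_neg]
    apply mul_le_mul_of_nonneg_right _ (abs_nonneg _)
    have h1 := hy n
    have h2 := hz n
    have h3 := hy (n + 1)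
    have h4 := hn0 n hn
    rw [abs_of_nonneg (mul_nonneg h1.1.le h2.1.le)]
    have : y n ≤ 1 / 2 := by nlinarith [mul_pos h1.1 h3.1]
    nlinarith [h1.1, h2.1, h2.2.1]
  have hpow : ∀ k, |L n0| ≤ 4 * (1 / 2) ^ k := by
    have : ∀ k, |L n0| ≤ (1 / 2) ^ k * |L (n0 + k)| := by
      intro k
      induction k with
      | zero => simp
      | succ k ih =>
        refine ih.trans ?_
        have := hhalf (n0 + k) (by omega)
        calc (1 / 2 : ℝ) ^ k * |L (n0 + k)| ≤ (1 / 2) ^ k * ((1 / 2) * |L (n0 + k + 1)|) :=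
              mul_le_mul_of_nonneg_left this (by positivity)
          _ = (1 / 2) ^ (k + 1) * |L (n0 + (k + 1))| := by rw [pow_succ, ← add_assoc]; ring
    intro k
    refine (this k).trans ?_
    rw [mul_comm]
    exact mul_le_mul_of_nonneg_right (hbound _) (by positivity)
  have hzero : L n0 = 0 := by
    have h1 : Tendsto (fun k : ℕ => (4:ℝ) * (1 / 2) ^ k) atTop (𝓝 0) := by
      have := (tendsto_pow_atTop_nhds_zero_of_lt_one (r := (1 / 2 : ℝ)) (by norm_num)
        (by norm_num)).const_mul 4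
      simpa using this
    have h2 : |L n0| ≤ 0 := ge_of_tendsto' h1 hpow
    exact abs_nonpos_iff.1 h2
  have hback : ∀ k, k ≤ n0 → L (n0 - k) = 0 := by
    intro k
    induction k with
    | zero => intro _; simpa using hzero
    | succ k ih =>
      intro hk
      have h1 := ih (by omega)
      rw [hrec (n0 - (k + 1)), show n0 - (k + 1) + 1 = n0 - k by omega, h1, mul_zero]
  have h0 := hback n0 le_rfl
  rw [Nat.sub_self, hL] at h0
  simp only at h0
  rw [G.P0, G.U0, G.V0, G.Q0] at h0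
  linarith


/-- `x` irrational: `P` tends to `0`. -/
lemma P_tendsto (hx : Irrational x) : Tendsto G.P atTop (𝓝 0) := by
  have hbdd : BddBelow (range G.P) := ⟨0, by rintro _ ⟨n, rfl⟩; exact (G.Ppos n).le⟩
  have hlim := tendsto_atTop_ciInf G.P_anti hbdd
  obtain ⟨l, hl⟩ : ∃ l : ℝ, l = ⨅ i, G.P i := ⟨_, rfl⟩
  rw [← hl] at hlim
  have hl0 : 0 ≤ l := ge_of_tendsto' hlim fun n => (G.Ppos n).le
  rcases hl0.eq_or_lt with h0 | hlpos
  · rw [← h0] at hlim; exact hlim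
  exfalso
  -- limits
  have hP1 : Tendsto (fun n => G.P (n + 1)) atTop (𝓝 l) := (tendsto_add_atTop_iff_nat 1).2 hlim
  have hV1 : Tendsto (fun n => G.V (n + 1)) atTop (𝓝 l) :=
    tendsto_of_tendsto_of_tendsto_of_le_of_le hP1 hlim (fun n => G.PV n) (fun n => G.VP n)
  have hU1 : Tendsto (fun n => G.U (n + 1)) atTop (𝓝 ((1 - l * l) / l)) := by
    have h1 : Tendsto (fun n => (1 - G.P n * G.P (n + 1)) / G.V (n + 1)) atTop
        (𝓝 ((1 - l * l) / l)) := (tendsto_const_nhds.sub (hlim.mul hP1)).div hV1 hlpos.ne'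
    refine h1.congr fun n => ?_
    rw [div_eq_iff (G.Vpos (n + 1)).ne']
    linarith [G.det n]
  have hc : ((1 - l * l) / l + l) / l = 1 / l ^ 2 := by
    field_simp
    ring
  have hV2 : Tendsto (fun n => G.V (n + 1 + 1)) atTop (𝓝 l) := (tendsto_add_atTop_iff_nat 1).2 hV1
  have hU2 : Tendsto (fun n => G.U (n + 1 + 1)) atTop (𝓝 ((1 - l * l) / l)) :=
    (tendsto_add_atTop_iff_nat 1).2 hU1
  have ha : Tendsto (fun n => (G.a (n + 1) : ℝ)) atTop (𝓝 (1 / l ^ 2)) := by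
    rw [← hc]
    refine ((hU2.add hV1).div hP1 hlpos.ne').congr fun n => ?_
    change (G.U (n + 1 + 1) + G.V (n + 1)) / G.P (n + 1) = _
    rw [div_eq_iff (G.Ppos (n + 1)).ne', G.US (n + 1)]
    ring
  have hb : Tendsto (fun n => (G.b (n + 1) : ℝ)) atTop (𝓝 (1 / l ^ 2)) := by
    rw [← hc]
    refine ((hU1.add hV2).div hP1 hlpos.ne').congr fun n => ?_
    change (G.U (n + 1) + G.V (n + 1 + 1)) / G.P (n + 1) = _
    rw [div_eq_iff (G.Ppos (n + 1)).ne', G.VS (n + 1)]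
    ring
  -- eventually constant
  have hev : ∀ᶠ n in atTop, |(G.a (n + 1) : ℝ) - 1 / l ^ 2| < 1 / 2 ∧
      |(G.b (n + 1) : ℝ) - 1 / l ^ 2| < 1 / 2 := by
    have h1 := Metric.tendsto_nhds.1 ha (1 / 2) (by norm_num)
    have h2 := Metric.tendsto_nhds.1 hb (1 / 2) (by norm_num)
    filter_upwards [h1, h2] with n h3 h4
    rw [Real.dist_eq] at h3 h4
    exact ⟨h3, h4⟩
  obtain ⟨n0, hn0⟩ := eventually_atTop.1 hev
  obtain ⟨N, hN⟩ : ∃ N : ℕ, N = G.a (n0 + 1) := ⟨_, rfl⟩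
  have hclose : ∀ {c d : ℕ}, |(c : ℝ) - 1 / l ^ 2| < 1 / 2 → |(d : ℝ) - 1 / l ^ 2| < 1 / 2 →
      c = d := by
    intro c d h1 h2
    rw [abs_lt] at h1 h2
    have h3 : ((c : ℤ) : ℝ) - ((d : ℤ) : ℝ) < 1 := by push_cast; linarith
    have h4 : ((d : ℤ) : ℝ) - ((c : ℤ) : ℝ) < 1 := by push_cast; linarith
    have h5 : (c : ℤ) - d < 1 := by exact_mod_cast h3
    have h6 : (d : ℤ) - c < 1 := by exact_mod_cast h4
    omega
  have haN : ∀ n, n0 + 1 ≤ n → G.a n = N := by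
    intro n hn
    have h1 := (hn0 (n - 1) (by omega)).1
    rw [show n - 1 + 1 = n by omega] at h1
    rw [hN]
    exact hclose h1 (hn0 n0 le_rfl).1
  have hbN : ∀ n, n0 + 1 ≤ n → G.b n = N := by
    intro n hn
    have h1 := (hn0 (n - 1) (by omega)).2
    rw [show n - 1 + 1 = n by omega] at h1
    rw [hN]
    exact hclose h1 (hn0 n0 le_rfl).1
  have hNpos : (1 : ℝ) ≤ N := by rw [hN]; exact_mod_cast G.a1 _
  -- the linear recursion
  obtain ⟨Z, hZ⟩ : ∃ Z : ℕ → ℝ, Z = fun n => N * G.P n - (G.U n + G.V n) := ⟨_, rfl⟩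
  have hZ1 : ∀ n, n0 + 2 ≤ n → 0 ≤ Z n := by
    intro n hn
    obtain ⟨m, rfl⟩ : ∃ m, n = m + 1 := ⟨n - 1, by omega⟩
    have h1 := G.P_rec (m + 1)
    rw [haN (m + 1) (by omega), hbN (m + 1) (by omega), G.QS] at h1
    have h2 : G.P (m + 1 + 1) ≤ G.P m := G.P_anti (by omega)
    have h3 : (N : ℝ) * Z (m + 1) = G.P m - G.P (m + 1 + 1) := by
      rw [hZ, h1]
      ring
    by_contra hneg
    push Not at hneg
    have : (N : ℝ) * Z (m + 1) < 0 := mul_neg_of_pos_of_neg (by linarith) hneg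
    linarith
  have hZ2 : ∀ n, n0 + 1 ≤ n → Z (n + 1) = N * (G.P (n + 1) - G.P n) - Z n := by
    intro n hn
    rw [hZ]
    simp only
    rw [G.US n, G.VS n, haN n hn, hbN n hn]
    ring
  obtain ⟨M, hM⟩ : ∃ M, M = n0 + 2 := ⟨_, rfl⟩
  have hPM : G.P (M + 1) = G.P M := by
    have h1 := hZ2 M (by omega)
    have h2 := hZ1 M (by omega)
    have h3 := hZ1 (M + 1) (by omega)
    have h4 : G.P (M + 1) ≤ G.P M := G.P_anti (by omega)
    by_contra hne
    have h5 : G.P (M + 1) < G.P M := lt_of_le_of_ne h4 hne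
    have h6 : (N : ℝ) * (G.P (M + 1) - G.P M) < 0 :=
      mul_neg_of_pos_of_neg (by linarith) (by linarith)
    linarith
  have hVM : G.V (M + 1) = G.P M := le_antisymm (G.VP M) (hPM ▸ G.PV M)
  have hZM : Z (M + 1) = 0 := by
    have h1 := hZ2 M (by omega)
    have h2 := hZ1 M (by omega)
    have h3 := hZ1 (M + 1) (by omega)
    rw [hPM, sub_self, mul_zero] at h1
    linarith
  have hUM : G.U (M + 1) = (N - 1) * G.P M := by
    rw [hZ] at hZM
    simp only at hZM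
    rw [hPM, hVM] at hZM
    linarith
  -- descent
  obtain ⟨w, hw⟩ : ∃ w, w = G.P M := ⟨_, rfl⟩
  have hwpos : 0 < w := by rw [hw]; exact G.Ppos M
  have hdesc : ∀ k, k ≤ M + 1 → ∃ i j k' m : ℤ, G.P (M + 1 - k) = i * w ∧
      G.U (M + 1 - k) = j * w ∧ G.V (M + 1 - k) = k' * w ∧ G.Q (M + 1 - k) = m * w := by
    intro k
    induction k with
    | zero =>
      intro _
      refine ⟨1, N - 1, 1, 1, ?_, ?_, ?_, ?_⟩
      · rw [Nat.sub_zero, hPM, hw]; push_cast; ring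
      · rw [Nat.sub_zero, hUM, hw]; push_cast; ring
      · rw [Nat.sub_zero, hVM, hw]; push_cast; ring
      · rw [Nat.sub_zero, G.QS, hw]; push_cast; ring
    | succ k ih =>
      intro hk
      obtain ⟨i, j, k', m, h1, h2, h3, h4⟩ := ih (by omega)
      obtain ⟨n, hn⟩ : ∃ n, n = M + 1 - (k + 1) := ⟨_, rfl⟩
      have hn1 : M + 1 - k = n + 1 := by omega
      rw [hn1] at h1 h2 h3 h4
      rw [← hn]
      have eP : G.P n = m * w := by rw [← G.QS n]; exact h4
      have eU : G.U n = (G.b n * m - k' : ℤ) * w := by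
        have := G.VS n
        rw [h3, eP] at this
        push_cast
        linarith
      have eV : G.V n = (G.a n * m - j : ℤ) * w := by
        have := G.US n
        rw [h2, eP] at this
        push_cast
        linarith
      have eQ : G.Q n = (i - G.a n * (G.b n * m - k') - G.b n * (G.a n * m - j) +
          G.a n * G.b n * m : ℤ) * w := by
        have := G.P_rec n
        rw [h1, eP, eU, eV] at this
        push_cast at this ⊢
        linarith
      exact ⟨m, _, _, _, eP, eU, eV, eQ⟩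
  obtain ⟨i, j, k', m, h1, h2, -, -⟩ := hdesc (M + 1) le_rfl
  rw [Nat.sub_self] at h1 h2
  rw [G.P0] at h1
  rw [G.U0] at h2
  have hj : (j : ℝ) ≠ 0 := by
    intro hj
    rw [hj, zero_mul] at h2
    exact one_ne_zero h2
  have hxe : x = (i : ℝ) / j := by
    rw [eq_div_iff hj]
    calc x * j = i * w * j := by rw [← h1]
      _ = i * (j * w) := by ring
      _ = i := by rw [← h2, mul_one]
  apply hx
  exact ⟨(i : ℚ) / j, by push_cast; exact hxe.symm⟩

end Greedy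

/-- the case of irrational `x` -/
theorem irrational_case {x : ℝ} (hx0 : 0 < x) (hx1 : x < 1) (hx : Irrational x) :
    ∃ g₁ g₂ : ℝ, g₁ ∈ Ioo (0:ℝ) 1 ∧ g₂ ∈ Ioo (0:ℝ) 1 ∧ Good g₁ ∧ Good g₂ ∧ x = g₁ + g₂ := by
  obtain ⟨G⟩ := exists_greedy hx0 hx1
  obtain ⟨y, hy⟩ := exists_seq G.a G.a1
  obtain ⟨z, hz⟩ := exists_seq G.b G.b1
  have hP := G.P_tendsto hx
  exact ⟨y 0, z 0, ⟨(hy 0).1, (hy 0).2.1⟩, ⟨(hz 0).1, (hz 0).2.1⟩,
    good_of_seq hy (G.a_tendsto hP), good_of_seq hz (G.b_tendsto hP), G.sum_eq hP hy hz⟩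

/-- The expansion of a rational number, as a statement on Moebius maps. -/
lemma rat_aux (q : ℕ) : ∀ (m : ℕ) (ε : ℤ), (ε = 1 ∨ ε = -1) →
    ((q = 1 ∧ m = 0 ∧ ε = 1) ∨ (q = 1 ∧ m = 1 ∧ ε = -1) ∨ (0 < m ∧ m < q ∧ Nat.Coprime m q)) →
    ∃ c d k : ℕ, (m : ℤ) * c + ε = q * d ∧ ∀ α : ℝ, 1 < α →
      0 < (m * α + d) / (q * α + c) ∧ (m * α + d) / (q * α + c) < 1 ∧
      T^[k] ((m * α + d) / (q * α + c)) = 1 / α := by
  induction q using Nat.strong_induction_on with
  | _ q ih =>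
    intro m ε hε h
    rcases h with ⟨rfl, rfl, rfl⟩ | ⟨rfl, rfl, rfl⟩ | ⟨hm, hmq, hcop⟩
    · refine ⟨0, 1, 0, by norm_num, fun α hα => ?_⟩
      have e : ((((0 : ℕ) : ℝ)) * α + ((1 : ℕ) : ℝ)) / (((1 : ℕ) : ℝ) * α + ((0 : ℕ) : ℝ)) =
          1 / α := by norm_num
      rw [e]
      refine ⟨by positivity, ?_, rfl⟩
      rw [div_lt_one (by linarith)]
      exact hα
    · refine ⟨1, 0, 1, by norm_num, fun α hα => ?_⟩
      have e : ((((1 : ℕ) : ℝ)) * α + ((0 : ℕ) : ℝ)) / (((1 : ℕ) : ℝ) * α + ((1 : ℕ) : ℝ)) =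
          α / (α + 1) := by norm_num
      rw [e]
      refine ⟨by positivity, ?_, ?_⟩
      · rw [div_lt_one (by linarith)]
        linarith
      · have h1 : (0 : ℝ) < 1 / α := by positivity
        have h2 : 1 / α < 1 := by rw [div_lt_one (by linarith)]; exact hα
        rw [Function.iterate_one]
        refine (T_step (a := 1) h1 h2 ?_).2
        push_cast
        field_simp
    · -- the inductive step
      obtain ⟨a, m', ha, hq, hnew⟩ : ∃ a m' : ℕ, 1 ≤ a ∧ q = a * m + m' ∧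
          ((m = 1 ∧ m' = 0 ∧ -ε = 1) ∨ (m = 1 ∧ m' = 1 ∧ -ε = -1) ∨
            (0 < m' ∧ m' < m ∧ Nat.Coprime m' m)) := by
        rcases Nat.lt_or_ge 1 m with h1 | h1
        · refine ⟨q / m, q % m, ?_, ?_, Or.inr (Or.inr ⟨?_, Nat.mod_lt _ hm, ?_⟩)⟩
          · exact Nat.div_pos hmq.le hm
          · exact (Nat.div_add_mod' q m).symm
          · rw [Nat.pos_iff_ne_zero]
            intro h0
            have hd : m ∣ q := Nat.dvd_of_mod_eq_zero h0
            have : Nat.gcd m q = m := Nat.gcd_eq_left hd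
            rw [Nat.Coprime, this] at hcop
            omega
          · rw [Nat.Coprime, ← Nat.gcd_rec]
            exact hcop
        · have hm1 : m = 1 := by omega
          rcases hε with rfl | rfl
          · exact ⟨q - 1, 1, by omega, by rw [hm1]; omega, Or.inr (Or.inl ⟨hm1, rfl, rfl⟩)⟩
          · exact ⟨q, 0, by omega, by rw [hm1]; omega, Or.inl ⟨hm1, rfl, by norm_num⟩⟩
      obtain ⟨c', d', k', hcd, hk⟩ := ih m hmq m' (-ε) (by omega) hnew
      refine ⟨a * c' + d', c', k' + 1, ?_, fun α hα => ?_⟩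
      · rw [hq]
        push_cast
        linear_combination -hcd
      · obtain ⟨h1, h2, h3⟩ := hk α hα
        obtain ⟨g', hg'⟩ : ∃ g' : ℝ, g' = (m' * α + d') / (m * α + c') := ⟨_, rfl⟩
        rw [← hg'] at h1 h2 h3
        have hmR : (0 : ℝ) < m := by exact_mod_cast hm
        have hc'0 : (0 : ℝ) ≤ c' := Nat.cast_nonneg _
        have hd'0 : (0 : ℝ) ≤ d' := Nat.cast_nonneg _
        have hm'0 : (0 : ℝ) ≤ m' := Nat.cast_nonneg _
        have haR : (1 : ℝ) ≤ a := by exact_mod_cast ha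
        have hden : 0 < m * α + (c' : ℝ) := by positivity
        have hqe : ((q : ℝ) * α + ((a * c' + d' : ℕ) : ℝ)) = (m * α + c') * (a + g') := by
          rw [hg', hq]
          push_cast
          field_simp
          ring
        have hg : (m * α + (c' : ℝ)) / ((q : ℝ) * α + ((a * c' + d' : ℕ) : ℝ)) = 1 / (a + g') := by
          rw [hqe]
          field_simp
        have hag : 1 < a + g' := by linarith
        rw [hg]
        refine ⟨by positivity, ?_, ?_⟩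
        · rw [div_lt_one (by linarith)]
          exact hag
        · rw [Function.iterate_succ_apply]
          rw [(T_step (a := a) h1 h2 (by field_simp)).2]
          exact h3

/-- the case of rational `x` -/
theorem rational_case (m q : ℕ) (hm : 0 < m) (hmq : m ≤ q) (hcop : Nat.Coprime m q) :
    ∃ g₁ g₂ : ℝ, g₁ ∈ Ioo (0:ℝ) 1 ∧ g₂ ∈ Ioo (0:ℝ) 1 ∧ Good g₁ ∧ Good g₂ ∧
      (m : ℝ) / q = g₁ + g₂ := by
  have hq : 0 < q := by omega
  have hcase : (q = 1 ∧ m = 0 ∧ (-1 : ℤ) = 1) ∨ (q = 1 ∧ m = 1 ∧ (-1 : ℤ) = -1) ∨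
      (0 < m ∧ m < q ∧ Nat.Coprime m q) := by
    rcases hmq.eq_or_lt with h | h
    · right; left
      have : Nat.gcd m q = m := by rw [h]; exact Nat.gcd_self q
      rw [Nat.Coprime, this] at hcop
      omega
    · right; right
      exact ⟨hm, h, hcop⟩
  obtain ⟨c, d, k, hcd, hk⟩ := rat_aux q m (-1) (Or.inr rfl) hcase
  obtain ⟨a, ha⟩ : ∃ a : ℕ → ℕ, a = fun n => if Even n then n + 1 else q ^ 2 * (n + 1) := ⟨_, rfl⟩
  have ha1 : ∀ n, 1 ≤ a n := by
    intro n
    rw [ha]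
    simp only
    split_ifs
    · omega
    · exact Nat.mul_pos (by positivity) (by omega)
  obtain ⟨y, hy⟩ := exists_seq a ha1
  have hqR : (0 : ℝ) < q := by exact_mod_cast hq
  have hq1 : (1 : ℝ) ≤ q := by exact_mod_cast hq
  have hq2 : (1 : ℝ) ≤ (q : ℝ) ^ 2 := one_le_pow₀ hq1
  have hα : 1 < 1 / y 0 := by
    rw [lt_div_iff₀ (hy 0).1]
    linarith [(hy 0).2.1]
  obtain ⟨h1, h2, h3⟩ := hk _ hα
  rw [one_div_one_div] at h3
  obtain ⟨z, hz⟩ : ∃ z : ℕ → ℝ, z = fun n => if n = 0 then 1 / (q ^ 2 / y 0 + q * c) else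
    if Even n then y n / q ^ 2 else q ^ 2 * y n := ⟨_, rfl⟩
  obtain ⟨b, hb⟩ : ∃ b : ℕ → ℕ, b = fun n => if n = 0 then q ^ 2 * a 0 + q * c else
    if Even n then q ^ 2 * (n + 1) else n + 1 := ⟨_, rfl⟩
  have hzz : ∀ n, 0 < z n ∧ z n < 1 ∧ z n * (b n + z (n + 1)) = 1 := by
    intro n
    have hyn := hy n
    have hyn1 := hy (n + 1)
    rcases Nat.eq_zero_or_pos n with rfl | hn
    · have e0 : z 0 = 1 / (q ^ 2 / y 0 + q * c) := by rw [hz]; simp
      have e1 : z (0 + 1) = q ^ 2 * y 1 := by rw [hz]; simp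
      have e2 : b 0 = q ^ 2 * a 0 + q * c := by rw [hb]; simp
      have hy0 := hyn.1
      have hc0 : (0 : ℝ) ≤ c := Nat.cast_nonneg _
      have hbig : 1 < (q : ℝ) ^ 2 / y 0 := by
        rw [lt_div_iff₀ hy0]
        linarith [hyn.2.1]
      have hden : 1 < (q : ℝ) ^ 2 / y 0 + q * c := by
        have : 0 ≤ (q : ℝ) * c := by positivity
        linarith
      rw [e0, e1, e2]
      refine ⟨by positivity, ?_, ?_⟩
      · rw [div_lt_one (by linarith)]
        exact hden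
      · have hrel : (q : ℝ) ^ 2 / y 0 + q * c = (q ^ 2 * a 0 + q * c : ℕ) + q ^ 2 * y 1 := by
          have := hyn.2.2
          rw [zero_add] at this
          have e3 : (a 0 : ℝ) + y 1 = 1 / y 0 := by
            field_simp
            linarith
          push_cast
          have e4 : (q : ℝ) ^ 2 / y 0 = q ^ 2 * (a 0 + y 1) := by rw [e3]; ring
          rw [e4]
          ring
        rw [← hrel]
        field_simp
    · have hn0 : n ≠ 0 := by omega
      have hy0 := hyn.1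
      by_cases hev : Even n
      · have hod : ¬ Even (n + 1) := by rw [Nat.even_add_one]; simpa using hev
        have e0 : z n = y n / q ^ 2 := by rw [hz]; simp [hn0, hev]
        have e1 : z (n + 1) = q ^ 2 * y (n + 1) := by rw [hz]; simp [hod]
        have e2 : b n = q ^ 2 * (n + 1) := by rw [hb]; simp [hn0, hev]
        have e3 : a n = n + 1 := by rw [ha]; simp [hev]
        have h5 := hyn.2.2
        rw [e3] at h5
        rw [e0, e1, e2]
        refine ⟨by positivity, ?_, ?_⟩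
        · rw [div_lt_one (by positivity)]
          linarith [hyn.2.1]
        · push_cast at h5 ⊢
          have h6 : y n / (q : ℝ) ^ 2 * ((q : ℝ) ^ 2 * (n + 1) + (q : ℝ) ^ 2 * y (n + 1)) =
              y n * (n + 1 + y (n + 1)) := by field_simp
          rw [h6, h5]
      · have hod : Even (n + 1) := by rw [Nat.even_add_one]; exact hev
        have e0 : z n = q ^ 2 * y n := by rw [hz]; simp [hn0, hev]
        have e1 : z (n + 1) = y (n + 1) / q ^ 2 := by rw [hz]; simp [hod]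
        have e2 : b n = n + 1 := by rw [hb]; simp [hn0, hev]
        have e3 : a n = q ^ 2 * (n + 1) := by rw [ha]; simp [hev]
        have h5 := hyn.2.2
        rw [e3] at h5
        push_cast at h5
        have h6 : (0 : ℝ) < n := by exact_mod_cast hn
        rw [e0, e1, e2]
        refine ⟨by positivity, ?_, ?_⟩
        · have h7 : 0 < y n * y (n + 1) := mul_pos hy0 hyn1.1
          have h8 : 0 < (q : ℝ) ^ 2 * y n := by positivity
          nlinarith
        · push_cast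
          have h6 : (q : ℝ) ^ 2 * y n * (n + 1 + y (n + 1) / (q : ℝ) ^ 2) =
              y n * ((q : ℝ) ^ 2 * (n + 1) + y (n + 1)) := by field_simp
          rw [h6, h5]
  have hcast : ∀ {u : ℕ → ℕ}, (∀ n, n ≤ u n) → Tendsto (fun n => (u n : ℝ)) atTop atTop := by
    intro u hu
    exact tendsto_atTop_mono (fun n => by exact_mod_cast hu n) tendsto_natCast_atTop_atTop
  have hq2N : 1 ≤ q ^ 2 := Nat.one_le_pow _ _ hq
  have ha2 : ∀ n, n ≤ a n := by
    intro n
    rw [ha]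
    simp only
    split_ifs
    · omega
    · nlinarith
  have hb2 : ∀ n, n ≤ b n := by
    intro n
    rw [hb]
    simp only
    split_ifs
    · omega
    · nlinarith
    · omega
  refine ⟨(m * (1 / y 0) + d) / (q * (1 / y 0) + c), z 0, ⟨h1, h2⟩, ⟨(hzz 0).1, (hzz 0).2.1⟩,
    ?_, good_of_seq hzz (hcast hb2), ?_⟩
  · apply good_of_iter k
    rw [h3]
    exact good_of_seq hy (hcast ha2)
  · have e0 : z 0 = 1 / (q ^ 2 / y 0 + q * c) := by rw [hz]; simp
    rw [e0]
    have hy0 := (hy 0).1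
    have hc0 : (0 : ℝ) ≤ c := Nat.cast_nonneg _
    have hcdR : (m : ℝ) * c - 1 = q * d := by
      have : ((m : ℤ) : ℝ) * ((c : ℤ) : ℝ) + ((-1 : ℤ) : ℝ) = ((q : ℤ) : ℝ) * ((d : ℤ) : ℝ) := by
        exact_mod_cast hcd
      push_cast at this
      linarith
    have hd1 : (q : ℝ) * (1 / y 0) + c ≠ 0 := by positivity
    have hd2 : (q : ℝ) ^ 2 / y 0 + q * c ≠ 0 := by positivity
    have hd3 : (q : ℝ) ^ 2 / y 0 + q * c = q * (q * (1 / y 0) + c) := by
      field_simp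
    rw [hd3]
    have hd4 : (d : ℝ) = (m * c - 1) / q := by rw [hcdR]; field_simp
    rw [hd4]
    field_simp
    ring

theorem main (x : ℝ) (hx0 : 0 < x) (hx1 : x ≤ 1) :
    ∃ g₁ g₂ : ℝ, g₁ ∈ Ioo (0:ℝ) 1 ∧ g₂ ∈ Ioo (0:ℝ) 1 ∧ Good g₁ ∧ Good g₂ ∧ x = g₁ + g₂ := by
  by_cases h : Irrational x
  · have hx1' : x < 1 := by
      refine lt_of_le_of_ne hx1 ?_
      rintro rfl
      exact not_irrational_one h
    exact irrational_case hx0 hx1' h
  · rw [Irrational, not_not] at h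
    obtain ⟨r, rfl⟩ := h
    have hr0 : 0 < r := by exact_mod_cast hx0
    have hr1 : r ≤ 1 := by exact_mod_cast hx1
    have hnum : 0 < r.num := Rat.num_pos.2 hr0
    obtain ⟨m, hm⟩ : ∃ m : ℕ, (m : ℤ) = r.num := ⟨r.num.toNat, Int.toNat_of_nonneg hnum.le⟩
    have hmq : m ≤ r.den := by
      have h1 : r.num ≤ r.den := by
        have := (Rat.le_iff r 1).1 hr1
        simpa using this
      omega
    have hcop : Nat.Coprime m r.den := by
      have := r.reduced
      have h2 : r.num.natAbs = m := by omega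
      rwa [h2] at this
    have hre : (r : ℝ) = (m : ℝ) / r.den := by
      have h3 : (r : ℝ) = (r.num : ℝ) / (r.den : ℝ) := by
        exact_mod_cast (Rat.num_div_den r).symm
      rw [h3, ← hm]
      push_cast
      rfl
    rw [hre]
    exact rational_case m r.den (by omega) hmq hcop

end Pool.Agent.K3h25.SumG
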