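import Mathlib

set_option autoImplicit false
open Topology Set

namespace Pool.Agent.K3h25.Tate

/-! ### sums over orbits -/

lemma iter_eq_of_iter {α : Type*} {p : ℕ} [Fact p.Prime] {τ : α → α} {q : α} (hτ : τ^[p] q = q)
    {i j : ℕ} (hij : i < j) (hj : j < p) (h : τ^[i] q = τ^[j] q) : τ q = q := by
  have hp : Function.IsPeriodicPt τ p q := hτ
  -- apply τ^[p - i] to both sides
  have h1 : τ^[p - i] (τ^[i] q) = τ^[p - i] (τ^[j] q) := by rw [h]
  rw [← Function.iterate_add_apply, ← Function.iterate_add_apply,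
    show p - i + i = p by omega, show p - i + j = (j - i) + p by omega,
    Function.iterate_add_apply, hτ] at h1
  have hd : Function.IsPeriodicPt τ (j - i) q := h1.symm
  have hg := hp.gcd hd
  have hcop : Nat.gcd p (j - i) = 1 :=
    Nat.coprime_of_lt_prime (by omega) (by omega) (Fact.out : p.Prime)
  rw [hcop] at hg
  exact hg

lemma sum_mem_of_orbits {α M : Type*} [AddCommGroup M] (B : AddSubgroup M)
    {p : ℕ} [Fact p.Prime] (τ : α → α) (hτ : ∀ q, τ^[p] q = q) (F : α → M)
    (hfix : ∀ q, τ q = q → F q ∈ B) (horb : ∀ q, ∑ i ∈ Finset.range p, F (τ^[i] q) ∈ B) :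
    ∀ (n : ℕ) (s : Finset α), s.card = n → (∀ q ∈ s, τ q ∈ s) → ∑ q ∈ s, F q ∈ B := by
  classical
  have hinj : Function.Injective τ := by
    intro a b hab
    have hp1 : p = (p - 1) + 1 := by have := (Fact.out : p.Prime).pos; omega
    have h1 : τ^[p - 1] (τ a) = τ^[p - 1] (τ b) := by rw [hab]
    rw [← Function.iterate_succ_apply, ← Function.iterate_succ_apply, Nat.succ_eq_add_one,
      ← hp1, hτ, hτ] at h1
    exact h1
  intro n
  induction n using Nat.strong_induction_on with
  | _ n ih =>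
    intro s hs hst
    rcases s.eq_empty_or_nonempty with rfl | ⟨q, hq⟩
    · rw [Finset.sum_empty]; exact B.zero_mem
    by_cases hqf : τ q = q
    · have h1 := ih (s.erase q).card (by rw [← hs]; exact Finset.card_erase_lt_of_mem hq)
        (s.erase q) rfl (by
          intro r hr
          rw [Finset.mem_erase] at hr ⊢
          refine ⟨fun h => hr.1 ?_, hst r hr.2⟩
          exact hinj (h.trans hqf.symm))
      rw [← Finset.add_sum_erase s F hq]
      exact B.add_mem (hfix q hqf) h1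
    · obtain ⟨O, hO⟩ : ∃ O : Finset α, O = (Finset.range p).image (fun i => τ^[i] q) := ⟨_, rfl⟩
      have hinjO : Set.InjOn (fun i => τ^[i] q) (Finset.range p : Set ℕ) := by
        intro i hi j hj hij
        simp only [Finset.coe_range, Set.mem_Iio] at hi hj
        simp only at hij
        by_contra hne
        rcases Nat.lt_or_gt_of_ne hne with h | h
        · exact hqf (iter_eq_of_iter (hτ q) h hj hij)
        · exact hqf (iter_eq_of_iter (hτ q) h hi hij.symm)
      have hiter : ∀ i, τ^[i] q ∈ s := by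
        intro i
        induction i with
        | zero => exact hq
        | succ i ihi => rw [Function.iterate_succ_apply']; exact hst _ ihi
      have hOs : O ⊆ s := by
        rw [hO]
        intro r hr
        rw [Finset.mem_image] at hr
        obtain ⟨i, -, rfl⟩ := hr
        exact hiter i
      have hqO : q ∈ O := by
        rw [hO, Finset.mem_image]
        exact ⟨0, Finset.mem_range.2 (Fact.out : p.Prime).pos, rfl⟩
      have h1 := ih (s \ O).card (by
          rw [← hs]
          apply Finset.card_lt_card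
          refine Finset.ssubset_iff_subset_ne.2 ⟨Finset.sdiff_subset, fun h => ?_⟩
          rw [← h, Finset.mem_sdiff] at hq
          exact hq.2 hqO) (s \ O) rfl (by
          intro r hr
          rw [Finset.mem_sdiff] at hr ⊢
          refine ⟨hst r hr.1, fun h => hr.2 ?_⟩
          rw [hO, Finset.mem_image] at h ⊢
          obtain ⟨i, hi, hi2⟩ := h
          rw [Finset.mem_range] at hi
          have hp0 := (Fact.out : p.Prime).pos
          rcases Nat.eq_zero_or_pos i with rfl | hipos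
          · refine ⟨p - 1, Finset.mem_range.2 (by omega), ?_⟩
            apply hinj
            rw [← Function.iterate_succ_apply' τ, Nat.succ_eq_add_one,
              show p - 1 + 1 = p by omega, hτ]
            exact hi2
          · refine ⟨i - 1, Finset.mem_range.2 (by omega), ?_⟩
            apply hinj
            rw [← Function.iterate_succ_apply' τ, Nat.succ_eq_add_one,
              show i - 1 + 1 = i by omega]
            exact hi2)
      rw [← Finset.sum_sdiff hOs]
      refine B.add_mem h1 ?_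
      rw [hO, Finset.sum_image hinjO]
      exact horb q

/-! ### the fixed points of an automorphism of order `p` of a pro-`p'` group -/

section Group

variable {G : Type*} [Group G] [TopologicalSpace G]

/-- every open subgroup of `K` has index prime to `p` -/
def ProPrimeTo (p : ℕ) (K : Subgroup G) : Prop :=
  ∀ W : Subgroup G, IsOpen (W : Set G) → W ≤ K → ¬ p ∣ W.relIndex K

lemma ProPrimeTo.mono {p : ℕ} {K L : Subgroup G} (hK : ProPrimeTo p K) (hL : IsOpen (L : Set G))
    (hLK : L ≤ K) : ProPrimeTo p L := by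
  intro W hW hWL hdvd
  apply hK W hW (hWL.trans hLK)
  rw [← Subgroup.relIndex_mul_relIndex W L K hWL hLK]
  exact Dvd.dvd.mul_right hdvd _

/-- the largest subgroup of `U` stable under `σ` -/
def core (σ : G →* G) (U : Subgroup G) : Subgroup G where
  carrier := {g | ∀ i : ℕ, σ^[i] g ∈ U}
  mul_mem' := by
    intro a b ha hb i
    rw [iterate_map_mul]
    exact U.mul_mem (ha i) (hb i)
  one_mem' := by
    intro i
    rw [iterate_map_one]
    exact U.one_mem
  inv_mem' := by
    intro a ha i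
    rw [iterate_map_inv]
    exact U.inv_mem (ha i)

lemma mem_core {σ : G →* G} {U : Subgroup G} {g : G} : g ∈ core σ U ↔ ∀ i : ℕ, σ^[i] g ∈ U :=
  Iff.rfl

lemma core_le (σ : G →* G) (U : Subgroup G) : core σ U ≤ U := fun _ hg => hg 0

lemma core_stable {σ : G →* G} {U : Subgroup G} {g : G} (hg : g ∈ core σ U) : σ g ∈ core σ U := by
  intro i
  rw [← Function.iterate_succ_apply]
  exact hg (i + 1)

lemma core_open {p : ℕ} (hp : 0 < p) {σ : G →* G} (hc : Continuous σ)
    (hσ : ∀ g, σ^[p] g = g) {U : Subgroup G} (hU : IsOpen (U : Set G)) :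
    IsOpen ((core σ U : Subgroup G) : Set G) := by
  have h1 : ((core σ U : Subgroup G) : Set G) = ⋂ i ∈ Finset.range p, (σ^[i]) ⁻¹' (U : Set G) := by
    ext g
    simp only [SetLike.mem_coe, mem_core, mem_iInter, mem_preimage, Finset.mem_range]
    constructor
    · intro h i _
      exact h i
    · intro h i
      have h2 : ∀ m, σ^[p * m] g = g := by
        intro m
        induction m with
        | zero => rfl
        | succ m ih => rw [Nat.mul_succ, Function.iterate_add_apply, hσ, ih]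
      have h3 : σ^[i] g = σ^[i % p] g := by
        conv_lhs => rw [← Nat.mod_add_div i p, Function.iterate_add_apply, h2]
      rw [h3]
      exact h _ (Nat.mod_lt _ hp)
  rw [h1]
  exact isOpen_biInter_finset fun i _ => hU.preimage (hc.iterate i)

variable [T2Space G] [NonarchimedeanGroup G]

/-- A coset of an open `σ`-stable subgroup `W` of a pro-`p'` group which is mapped to itself by `σ`
(of order `p`) contains a fixed point of `σ`. -/
lemma exists_fixed {p : ℕ} [Fact p.Prime] {σ : G →* G} (hc : Continuous σ)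
    (hσ : ∀ g, σ^[p] g = g) {K W : Subgroup G} (hK : ProPrimeTo p K)
    (hKc : IsCompact (K : Set G)) (hW : IsOpen (W : Set G)) (hWK : W ≤ K)
    (hWσ : ∀ g ∈ W, σ g ∈ W) {g : G} (hg : g⁻¹ * σ g ∈ W) :
    ∃ h : G, σ h = h ∧ g⁻¹ * h ∈ W := by
  classical
  have hp0 : 0 < p := (Fact.out : p.Prime).pos
  -- finite level
  have hfin : ∀ U : Subgroup G, IsOpen (U : Set G) → U ≤ W → (∀ x ∈ U, σ x ∈ U) →
      ∃ x : G, g⁻¹ * x ∈ W ∧ x⁻¹ * σ x ∈ U := by
    intro U hU hUW hUσ
    have hnd : ¬ p ∣ U.relIndex W := (hK.mono hW hWK) U hU hUW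
    have hne : U.relIndex W ≠ 0 := fun h => hnd (h ▸ dvd_zero p)
    have : (U.subgroupOf W).FiniteIndex := ⟨hne⟩
    have : Fintype (W ⧸ U.subgroupOf W) := Fintype.ofFinite _
    -- the twisted action
    have hcW : ∀ w : W, g⁻¹ * σ g * σ (w : G) ∈ W := fun w => W.mul_mem hg (hWσ _ w.2)
    obtain ⟨f, hf⟩ : ∃ f : (W ⧸ U.subgroupOf W) → (W ⧸ U.subgroupOf W),
        ∀ w : W, f (QuotientGroup.mk w) = QuotientGroup.mk ⟨g⁻¹ * σ g * σ (w : G), hcW w⟩ := by
      refine ⟨Quotient.map' (fun w => ⟨g⁻¹ * σ g * σ (w : G), hcW w⟩) ?_, fun w => rfl⟩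
      intro a b hab
      rw [QuotientGroup.leftRel_apply, Subgroup.mem_subgroupOf] at hab ⊢
      push_cast at hab ⊢
      have e : (g⁻¹ * σ g * σ (a : G))⁻¹ * (g⁻¹ * σ g * σ (b : G)) = σ ((a : G)⁻¹ * b) := by
        rw [map_mul, map_inv]
        group
      rw [e]
      exact hUσ _ hab
    have hiter : ∀ (n : ℕ) (w : W), ∃ h : g⁻¹ * σ^[n] (g * w) ∈ W,
        f^[n] (QuotientGroup.mk w) = QuotientGroup.mk ⟨g⁻¹ * σ^[n] (g * w), h⟩ := by
      intro n w
      induction n with
      | zero =>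
        have h0 : g⁻¹ * σ^[0] (g * w) ∈ W := by simp
        have h1 : w = ⟨g⁻¹ * σ^[0] (g * w), h0⟩ := Subtype.ext (by simp)
        exact ⟨h0, congrArg (QuotientGroup.mk (s := U.subgroupOf W)) h1⟩
      | succ n ih =>
        obtain ⟨h, ih⟩ := ih
        have e : g⁻¹ * σ g * σ (g⁻¹ * σ^[n] (g * w)) = g⁻¹ * σ^[n + 1] (g * w) := by
          rw [map_mul, map_inv, Function.iterate_succ_apply']
          group
        refine ⟨by rw [← e]; exact W.mul_mem hg (hWσ _ h), ?_⟩
        rw [Function.iterate_succ_apply', ih, hf]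
        exact congrArg _ (Subtype.ext e)
    have hfp : ∀ x, f^[p] x = x := by
      intro x
      obtain ⟨w, rfl⟩ := QuotientGroup.mk_surjective x
      obtain ⟨h, h2⟩ := hiter p w
      rw [h2]
      exact congrArg _ (Subtype.ext (by simp [hσ]))
    have hcard2 : Fintype.card (W ⧸ U.subgroupOf W) = U.relIndex W := by
      rw [Subgroup.relIndex, Subgroup.index, Nat.card_eq_fintype_card]
    have hnonempty : ∃ x, f x = x := by
      by_contra hemp
      push Not at hemp
      have h1 := sum_mem_of_orbits (M := ZMod p) ⊥ f hfp (fun _ => 1)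
        (fun q hq => absurd hq (hemp q)) (fun q => by simp) _ Finset.univ rfl
        (fun q _ => Finset.mem_univ _)
      rw [AddSubgroup.mem_bot, Finset.sum_const, Finset.card_univ, hcard2, nsmul_one,
        ZMod.natCast_eq_zero_iff] at h1
      exact hnd h1
    obtain ⟨x, hx⟩ := hnonempty
    obtain ⟨w, rfl⟩ := QuotientGroup.mk_surjective x
    have hx2 : f (QuotientGroup.mk w) = QuotientGroup.mk w := hx
    rw [hf, eq_comm, QuotientGroup.eq, Subgroup.mem_subgroupOf] at hx2
    push_cast at hx2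
    refine ⟨g * w, by simp, ?_⟩
    have e : (g * (w : G))⁻¹ * σ (g * w) = (w : G)⁻¹ * (g⁻¹ * σ g * σ (w : G)) := by
      rw [map_mul]
      group
    rw [e]
    exact hx2
  -- compactness
  obtain ⟨I, hI⟩ : ∃ I : Type _, I = {U : Subgroup G // IsOpen (U : Set G) ∧ U ≤ W ∧
    ∀ x ∈ U, σ x ∈ U} := ⟨_, rfl⟩
  have hWcl : IsClosed (W : Set G) := Subgroup.isClosed_of_isOpen W hW
  have hgW : IsCompact ((fun x : G => g⁻¹ * x) ⁻¹' (W : Set G)) := by
    have h1 : IsCompact (W : Set G) := hKc.of_isClosed_subset hWcl hWK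
    have h2 : (fun x : G => g⁻¹ * x) ⁻¹' (W : Set G) = (fun x => g * x) '' (W : Set G) := by
      ext x
      constructor
      · intro h
        exact ⟨g⁻¹ * x, h, by simp⟩
      · rintro ⟨y, hy, rfl⟩
        simpa using hy
    rw [h2]
    exact h1.image (by fun_prop)
  let t : {U : Subgroup G // IsOpen (U : Set G) ∧ U ≤ W ∧ ∀ x ∈ U, σ x ∈ U} → Set G :=
    fun U => {x | g⁻¹ * x ∈ W ∧ x⁻¹ * σ x ∈ U.1}
  have : Nonempty {U : Subgroup G // IsOpen (U : Set G) ∧ U ≤ W ∧ ∀ x ∈ U, σ x ∈ U} :=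
    ⟨⟨W, hW, le_rfl, hWσ⟩⟩
  have htcl : ∀ U, IsClosed (t U) := by
    intro U
    have h1 : IsClosed ((U.1 : Subgroup G) : Set G) := Subgroup.isClosed_of_isOpen U.1 U.2.1
    have h2 : t U = (fun x : G => g⁻¹ * x) ⁻¹' (W : Set G) ∩
      (fun x : G => x⁻¹ * σ x) ⁻¹' ((U.1 : Subgroup G) : Set G) := rfl
    rw [h2]
    exact (hWcl.preimage (by fun_prop)).inter (h1.preimage (by fun_prop))
  have hne := IsCompact.nonempty_iInter_of_directed_nonempty_isCompact_isClosed t ?_ ?_ ?_ htcl
  · obtain ⟨x, hx⟩ := hne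
    rw [mem_iInter] at hx
    refine ⟨x, ?_, (hx ⟨W, hW, le_rfl, hWσ⟩).1⟩
    by_contra hne
    have hne' : x⁻¹ * σ x ≠ 1 := by
      intro h
      apply hne
      rw [inv_mul_eq_one] at h
      exact h.symm
    have hnhds : {y : G | y ≠ x⁻¹ * σ x} ∈ 𝓝 (1 : G) :=
      isOpen_ne.mem_nhds (Ne.symm hne')
    obtain ⟨U0, hU0⟩ := NonarchimedeanGroup.is_nonarchimedean _ hnhds
    have hopen : IsOpen ((W ⊓ core σ U0.toSubgroup : Subgroup G) : Set G) :=
      hW.inter (core_open hp0 hc hσ U0.isOpen)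
    have := (hx ⟨W ⊓ core σ U0.toSubgroup, hopen, inf_le_left, fun y hy =>
      ⟨hWσ y hy.1, core_stable hy.2⟩⟩).2
    have h2 : x⁻¹ * σ x ∈ (U0 : Set G) := core_le _ _ this.2
    exact hU0 h2 rfl
  · intro U U'
    refine ⟨⟨U.1 ⊓ U'.1, U.2.1.inter U'.2.1, inf_le_left.trans U.2.2.1, fun y hy =>
      ⟨U.2.2.2 y hy.1, U'.2.2.2 y hy.2⟩⟩, ?_, ?_⟩
    · intro x hx
      exact ⟨hx.1, hx.2.1⟩
    · intro x hx
      exact ⟨hx.1, hx.2.2⟩
  · intro U
    obtain ⟨x, h1, h2⟩ := hfin U.1 U.2.1 U.2.2.1 U.2.2.2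
    exact ⟨x, h1, h2⟩
  · intro U
    exact hgW.of_isClosed_subset (htcl U) fun x hx => hx.1

end Group

/-! ### averaging -/

section Average

variable {G : Type*} [Group G] [TopologicalSpace G] [T2Space G] [NonarchimedeanGroup G]
  {k V : Type*} [Field k] [AddCommGroup V] [Module k V] (ρ : Representation k G V)

/-- `N = 1 + S + ... + S^{p-1}` -/
def nrm (p : ℕ) (S : V →ₗ[k] V) : V →ₗ[k] V := ∑ i ∈ Finset.range p, S ^ i

variable {ρ}

omit [TopologicalSpace G] [T2Space G] [NonarchimedeanGroup G] in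
lemma pow_comm {σ : G →* G} {S : V →ₗ[k] V} (hS : ∀ g v, S (ρ g v) = ρ (σ g) (S v)) (i : ℕ)
    (g : G) (v : V) : (S ^ i) (ρ g v) = ρ (σ^[i] g) ((S ^ i) v) := by
  induction i with
  | zero => simp
  | succ i ih =>
    rw [pow_succ', Module.End.mul_apply, ih, hS, Module.End.mul_apply,
      Function.iterate_succ_apply']

/-- the stabiliser of a vector -/
def stab (ρ : Representation k G V) (v : V) : Subgroup G where
  carrier := {g | ρ g v = v}
  mul_mem' := by
    intro a b ha hb
    simp only [Set.mem_ofPred_eq] at ha hb ⊢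
    rw [map_mul, Module.End.mul_apply, hb, ha]
  one_mem' := by simp
  inv_mem' := by
    intro a ha
    simp only [Set.mem_ofPred_eq] at ha ⊢
    conv_lhs => rw [← ha]
    simp

omit [TopologicalSpace G] [T2Space G] [NonarchimedeanGroup G] in
lemma mem_stab {v : V} {g : G} : g ∈ stab ρ v ↔ ρ g v = v := Iff.rfl

/-- The averaging argument: `B` is the image of `N` or of `1 - S`. -/
lemma average {p : ℕ} [Fact p.Prime] [CharP k p] {σ : G →* G} (hc : Continuous σ)
    (hσ : ∀ g, σ^[p] g = g) {K : Subgroup G} (hK : ProPrimeTo p K)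
    (hKo : IsOpen (K : Set G)) (hKc : IsCompact (K : Set G)) (hKσ : ∀ g ∈ K, σ g ∈ K)
    {S : V →ₗ[k] V} (hS : ∀ g v, S (ρ g v) = ρ (σ g) (S v))
    {v : V} (hv : IsOpen {g : G | ρ g v = v}) (B : Submodule k V)
    (hfix : ∀ h ∈ K, σ h = h → ρ h v - v ∈ B)
    (horb : ∀ g : G, ∑ i ∈ Finset.range p, (v - ρ (σ^[i] g) v) ∈ B) :
    ∃ w : V, (∀ g ∈ K, ρ g w = w) ∧ v - w ∈ B ∧ (S v = v → S w = w) ∧
      (nrm p S v = 0 → nrm p S w = 0) := by
  classical
  have hp0 : 0 < p := (Fact.out : p.Prime).pos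
  obtain ⟨W, hW⟩ : ∃ W : Subgroup G, W = core σ (stab ρ v) ⊓ K := ⟨_, rfl⟩
  have hvo : IsOpen ((stab ρ v : Subgroup G) : Set G) := hv
  have hWo : IsOpen (W : Set G) := by
    rw [hW]
    exact (core_open hp0 hc hσ hvo).inter hKo
  have hWK : W ≤ K := by rw [hW]; exact inf_le_right
  have hWσ : ∀ g ∈ W, σ g ∈ W := by
    intro g hg
    rw [hW] at hg ⊢
    exact ⟨core_stable hg.1, hKσ g hg.2⟩
  have hWσi : ∀ (i : ℕ), ∀ g ∈ W, σ^[i] g ∈ W := by
    intro i
    induction i with
    | zero => exact fun g hg => hg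
    | succ i ih =>
      intro g hg
      rw [Function.iterate_succ_apply']
      exact hWσ _ (ih g hg)
  have hWv : ∀ g ∈ W, ρ g v = v := by
    intro g hg
    rw [hW] at hg
    exact core_le _ _ hg.1
  have hnd := hK W hWo hWK
  have hne : W.relIndex K ≠ 0 := fun h => hnd (h ▸ dvd_zero p)
  have : (W.subgroupOf K).FiniteIndex := ⟨hne⟩
  have : Fintype (K ⧸ W.subgroupOf K) := Fintype.ofFinite _
  obtain ⟨r, hr⟩ : ∃ r : (K ⧸ W.subgroupOf K) → K, ∀ q, QuotientGroup.mk (r q) = q :=
    ⟨Quotient.out, fun q => Quotient.out_eq' q⟩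
  -- vectors fixed by W
  have hrep : ∀ u : V, (∀ g ∈ W, ρ g u = u) → ∀ (q : K ⧸ W.subgroupOf K) (g : K),
      QuotientGroup.mk g = q → ρ (r q : G) u = ρ (g : G) u := by
    intro u hu q g hg
    have h1 : (QuotientGroup.mk g : K ⧸ W.subgroupOf K) = QuotientGroup.mk (r q) := by
      rw [hg, hr]
    rw [QuotientGroup.eq, Subgroup.mem_subgroupOf] at h1
    push_cast at h1
    have h2 := hu _ h1
    calc ρ (r q : G) u = ρ ((g : G) * ((g : G)⁻¹ * (r q : G))) u := by
          congr 2
          group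
      _ = ρ (g : G) u := by rw [map_mul, Module.End.mul_apply, h2]
  -- the action of σ on K / W
  obtain ⟨τ, hτ⟩ : ∃ τ : (K ⧸ W.subgroupOf K) → (K ⧸ W.subgroupOf K),
      ∀ g : K, τ (QuotientGroup.mk g) = QuotientGroup.mk ⟨σ (g : G), hKσ _ g.2⟩ := by
    refine ⟨Quotient.map' (fun g => ⟨σ (g : G), hKσ _ g.2⟩) ?_, fun w => rfl⟩
    intro a b hab
    rw [QuotientGroup.leftRel_apply, Subgroup.mem_subgroupOf] at hab ⊢
    push_cast at hab ⊢
    have e : (σ (a : G))⁻¹ * σ (b : G) = σ ((a : G)⁻¹ * b) := by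
      rw [map_mul, map_inv]
    rw [e]
    exact hWσ _ hab
  have hKσi : ∀ (i : ℕ), ∀ g ∈ K, σ^[i] g ∈ K := by
    intro i
    induction i with
    | zero => exact fun g hg => hg
    | succ i ih =>
      intro g hg
      rw [Function.iterate_succ_apply']
      exact hKσ _ (ih g hg)
  have hτi : ∀ (n : ℕ) (g : K), τ^[n] (QuotientGroup.mk g) =
      QuotientGroup.mk ⟨σ^[n] (g : G), hKσi n _ g.2⟩ := by
    intro n g
    induction n with
    | zero => rfl
    | succ n ih =>
      rw [Function.iterate_succ_apply', ih, hτ]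
      exact congrArg _ (Subtype.ext (Function.iterate_succ_apply' σ n (g : G)).symm)
  have hτp : ∀ q, τ^[p] q = q := by
    intro q
    obtain ⟨g, rfl⟩ := QuotientGroup.mk_surjective q
    rw [hτi]
    exact congrArg _ (Subtype.ext (hσ _))
  have hτbij : Function.Bijective τ := by
    have hp1 : p = (p - 1) + 1 := by omega
    constructor
    · intro a b hab
      have h1 : τ^[p - 1] (τ a) = τ^[p - 1] (τ b) := by rw [hab]
      rw [← Function.iterate_succ_apply, ← Function.iterate_succ_apply, Nat.succ_eq_add_one,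
        ← hp1, hτp, hτp] at h1
      exact h1
    · intro b
      refine ⟨τ^[p - 1] b, ?_⟩
      rw [← Function.iterate_succ_apply' τ, Nat.succ_eq_add_one, ← hp1, hτp]
  -- the average
  obtain ⟨Av, hAv⟩ : ∃ Av : V →ₗ[k] V, Av = ∑ q : K ⧸ W.subgroupOf K, ρ (r q : G) := ⟨_, rfl⟩
  have hAv' : ∀ u, Av u = ∑ q : K ⧸ W.subgroupOf K, ρ (r q : G) u := by
    intro u
    rw [hAv, LinearMap.sum_apply]
  have hAK : ∀ g ∈ K, ρ g (Av v) = Av v := by
    intro g hg
    rw [hAv', map_sum]
    have h1 : ∀ q : K ⧸ W.subgroupOf K, ρ g (ρ (r q : G) v) =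
        ρ (r ((⟨g, hg⟩ : K) • q) : G) v := by
      intro q
      have h2 : (QuotientGroup.mk ((⟨g, hg⟩ : K) * r q) : K ⧸ W.subgroupOf K) =
          (⟨g, hg⟩ : K) • q := by
        conv_rhs => rw [← hr q]
        rfl
      rw [hrep v hWv ((⟨g, hg⟩ : K) • q) (⟨g, hg⟩ * r q) h2, ← Module.End.mul_apply, ← map_mul]
      rfl
    rw [Finset.sum_congr rfl fun q _ => h1 q]
    exact (MulAction.bijective (⟨g, hg⟩ : K)).sum_comp
      (fun q : K ⧸ W.subgroupOf K => ρ (r q : G) v)
  have hSW : ∀ u : V, (∀ g ∈ W, ρ g u = u) → ∀ g ∈ W, ρ g (S u) = S u := by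
    intro u hu g hg
    have h1 : σ (σ^[p - 1] g) = g := by
      rw [← Function.iterate_succ_apply' σ, Nat.succ_eq_add_one, show p - 1 + 1 = p by omega, hσ]
    rw [← h1, ← hS, hu _ (hWσi _ g hg)]
  have hAS : ∀ u : V, (∀ g ∈ W, ρ g u = u) → S (Av u) = Av (S u) := by
    intro u hu
    rw [hAv', hAv', map_sum]
    have h1 : ∀ q : K ⧸ W.subgroupOf K, S (ρ (r q : G) u) = ρ (r (τ q) : G) (S u) := by
      intro q
      rw [hS, hrep (S u) (hSW u hu) (τ q) ⟨σ (r q : G), hKσ _ (r q).2⟩]
      rw [← hτ, hr]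
    rw [Finset.sum_congr rfl fun q _ => h1 q]
    exact hτbij.sum_comp (fun q : K ⧸ W.subgroupOf K => ρ (r q : G) (S u))
  have hASi : ∀ i : ℕ, (∀ g ∈ W, ρ g ((S ^ i) v) = (S ^ i) v) ∧
      (S ^ i) (Av v) = Av ((S ^ i) v) := by
    intro i
    induction i with
    | zero => exact ⟨hWv, rfl⟩
    | succ i ih =>
      rw [pow_succ', Module.End.mul_apply, Module.End.mul_apply, ih.2]
      exact ⟨hSW _ ih.1, hAS _ ih.1⟩
  -- the difference
  have hdiff : ∑ q : K ⧸ W.subgroupOf K, (v - ρ (r q : G) v) ∈ B := by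
    refine sum_mem_of_orbits B.toAddSubgroup τ hτp (fun q => v - ρ (r q : G) v) ?_ ?_ _
      Finset.univ rfl (fun q _ => Finset.mem_univ _)
    · intro q hq
      have h1 : τ (QuotientGroup.mk (r q)) = QuotientGroup.mk (r q) := by rw [hr]; exact hq
      rw [hτ, eq_comm, QuotientGroup.eq, Subgroup.mem_subgroupOf] at h1
      push_cast at h1
      obtain ⟨h, hh1, hh2⟩ := exists_fixed hc hσ hK hKc hWo hWK hWσ h1
      have hhK : h ∈ K := by
        have := K.mul_mem (r q).2 (hWK hh2)
        simpa using this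
      have h3 : ρ h v = ρ (r q : G) v := by
        calc ρ h v = ρ ((r q : G) * ((r q : G)⁻¹ * h)) v := by
              congr 2
              group
          _ = ρ (r q : G) v := by rw [map_mul, Module.End.mul_apply, hWv _ hh2]
      have h4 := hfix h hhK hh1
      rw [h3] at h4
      have h5 := B.neg_mem h4
      rw [neg_sub] at h5
      exact h5
    · intro q
      have h1 : ∀ i, ρ (r (τ^[i] q) : G) v = ρ (σ^[i] (r q : G)) v := by
        intro i
        rw [hrep v hWv _ ⟨σ^[i] (r q : G), hKσi i _ (r q).2⟩]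
        rw [← hτi, hr]
      have h2 := horb (r q : G)
      rw [Finset.sum_congr rfl fun i _ => by rw [← h1 i]] at h2
      exact h2
  obtain ⟨n, hn⟩ : ∃ n : ℕ, n = Fintype.card (K ⧸ W.subgroupOf K) := ⟨_, rfl⟩
  have hn2 : n = W.relIndex K := by
    rw [hn, Subgroup.relIndex, Subgroup.index, Nat.card_eq_fintype_card]
  have hnk : (n : k) ≠ 0 := by
    intro h
    rw [CharP.cast_eq_zero_iff k p] at h
    exact hnd (hn2 ▸ h)
  rw [Finset.sum_sub_distrib, Finset.sum_const, Finset.card_univ, ← hn, ← hAv'] at hdiff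
  refine ⟨(n : k)⁻¹ • Av v, ?_, ?_, ?_, ?_⟩
  · intro g hg
    rw [map_smul, hAK g hg]
  · have h1 := B.smul_mem ((n : k)⁻¹) hdiff
    rw [smul_sub, ← Nat.cast_smul_eq_nsmul k, smul_smul, inv_mul_cancel₀ hnk, one_smul] at h1
    exact h1
  · intro h
    rw [map_smul, hAS v hWv, h]
  · intro h
    rw [map_smul]
    have h1 : nrm p S (Av v) = Av (nrm p S v) := by
      unfold nrm
      rw [LinearMap.sum_apply, LinearMap.sum_apply, map_sum]
      exact Finset.sum_congr rfl fun i _ => (hASi i).2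
    rw [h1, h, map_zero, smul_zero]

end Average

end Pool.Agent.K3h25.Tate
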