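import Pool.Agent.K3h25.Tate

set_option autoImplicit false
open Topology Set

namespace Pool.Agent.K3h25.Tate

section Defs

variable {G : Type*} [Group G] {k V : Type*} [Field k] [AddCommGroup V] [Module k V]

/-- A representation is smooth when every vector has open stabiliser. -/
def IsSmooth [TopologicalSpace G] (ρ : Representation k G V) : Prop :=
  ∀ v : V, IsOpen {g : G | ρ g v = v}

/-- A representation is admissible when it is smooth and the space of vectors fixed by any
compact open subgroup is finite-dimensional. -/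
def IsAdmissible [TopologicalSpace G] (ρ : Representation k G V) : Prop :=
  IsSmooth ρ ∧ ∀ K : Subgroup G, IsOpen (K : Set G) → IsCompact (K : Set G) →
    FiniteDimensional k (Representation.invariants (ρ.comp K.subtype))

/-- The subgroup `{g | σ g = g}`. -/
def fixedPts (σ : G →* G) : Subgroup G := σ.eqLocus (MonoidHom.id G)

lemma mem_fixedPts {σ : G →* G} {g : G} : g ∈ fixedPts σ ↔ σ g = g := Iff.rfl

/-- The representation of `G` on `A / (A ∩ B)` for stable subspaces `A`, `B`. -/
def subquot (ρ : Representation k G V) (A B : Submodule k V) (hA : ∀ g, A ≤ A.comap (ρ g))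
    (hB : ∀ g, B ≤ B.comap (ρ g)) : Representation k G (A ⧸ B.comap A.subtype) :=
  (ρ.subrepresentation A hA).quotient (B.comap A.subtype) (fun g _ hx => hB g hx)

variable (ρ : Representation k G V) (σ : G →* G) (p : ℕ) (S : V →ₗ[k] V)
  (hS : ∀ g v, S (ρ g v) = ρ (σ g) (S v))

include hS

lemma ker_one_sub_stable (h : fixedPts σ) :
    LinearMap.ker (1 - S) ≤ (LinearMap.ker (1 - S)).comap ((ρ.comp (fixedPts σ).subtype) h) := by
  intro v hv
  rw [Submodule.mem_comap, LinearMap.mem_ker, LinearMap.sub_apply, Module.End.one_apply,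
    sub_eq_zero] at *
  change ρ (h : G) v = S (ρ (h : G) v)
  rw [hS, mem_fixedPts.1 h.2, ← hv]

lemma nrm_comm (h : fixedPts σ) (v : V) : nrm p S (ρ (h : G) v) = ρ (h : G) (nrm p S v) := by
  unfold nrm
  rw [LinearMap.sum_apply, LinearMap.sum_apply, map_sum]
  refine Finset.sum_congr rfl fun i _ => ?_
  rw [pow_comm hS]
  congr 1
  have : ∀ i, σ^[i] (h : G) = h := by
    intro i
    induction i with
    | zero => rfl
    | succ i ih => rw [Function.iterate_succ_apply', ih, mem_fixedPts.1 h.2]
  rw [this]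

lemma range_nrm_stable (h : fixedPts σ) :
    LinearMap.range (nrm p S) ≤
      (LinearMap.range (nrm p S)).comap ((ρ.comp (fixedPts σ).subtype) h) := by
  rintro _ ⟨v, rfl⟩
  exact ⟨ρ (h : G) v, nrm_comm ρ σ p S hS h v⟩

lemma ker_nrm_stable (h : fixedPts σ) :
    LinearMap.ker (nrm p S) ≤
      (LinearMap.ker (nrm p S)).comap ((ρ.comp (fixedPts σ).subtype) h) := by
  intro v hv
  rw [Submodule.mem_comap, LinearMap.mem_ker] at *
  change nrm p S (ρ (h : G) v) = 0
  rw [nrm_comm ρ σ p S hS, hv, map_zero]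

lemma range_one_sub_stable (h : fixedPts σ) :
    LinearMap.range (1 - S) ≤
      (LinearMap.range (1 - S)).comap ((ρ.comp (fixedPts σ).subtype) h) := by
  rintro _ ⟨v, rfl⟩
  refine ⟨ρ (h : G) v, ?_⟩
  change (1 - S) (ρ (h : G) v) = ρ (h : G) ((1 - S) v)
  rw [LinearMap.sub_apply, LinearMap.sub_apply, Module.End.one_apply, Module.End.one_apply, hS,
    mem_fixedPts.1 h.2, map_sub]

/-- `T⁰ = ker (1 - S) / N V` as a representation of the fixed points of `σ` -/
def tate0 : Representation k (fixedPts σ)
    (LinearMap.ker (1 - S) ⧸ (LinearMap.range (nrm p S)).comap (LinearMap.ker (1 - S)).subtype) :=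
  subquot (ρ.comp (fixedPts σ).subtype) (LinearMap.ker (1 - S)) (LinearMap.range (nrm p S))
    (ker_one_sub_stable ρ σ S hS) (range_nrm_stable ρ σ p S hS)

/-- `T¹ = ker N / (1 - S) V` as a representation of the fixed points of `σ` -/
def tate1 : Representation k (fixedPts σ)
    (LinearMap.ker (nrm p S) ⧸ (LinearMap.range (1 - S)).comap (LinearMap.ker (nrm p S)).subtype) :=
  subquot (ρ.comp (fixedPts σ).subtype) (LinearMap.ker (nrm p S)) (LinearMap.range (1 - S))
    (ker_nrm_stable ρ σ p S hS) (range_one_sub_stable ρ σ S hS)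

end Defs

section General

variable {G : Type*} [Group G] [TopologicalSpace G] [T2Space G] [NonarchimedeanGroup G]
  {k V : Type*} [Field k] [AddCommGroup V] [Module k V] {ρ : Representation k G V}

lemma subquot_admissible {p : ℕ} [Fact p.Prime] {σ : G →* G} (hc : Continuous σ)
    (hσ : ∀ g, σ^[p] g = g) {K₀ : Subgroup G} (hK : ProPrimeTo p K₀)
    (hKo : IsOpen (K₀ : Set G)) (hKc : IsCompact (K₀ : Set G)) (hρ : IsAdmissible ρ)
    (A B : Submodule k V)
    (hA : ∀ h : fixedPts σ, A ≤ A.comap ((ρ.comp (fixedPts σ).subtype) h))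
    (hB : ∀ h : fixedPts σ, B ≤ B.comap ((ρ.comp (fixedPts σ).subtype) h))
    (key : ∀ K : Subgroup G, ProPrimeTo p K → IsOpen (K : Set G) → IsCompact (K : Set G) →
      (∀ g ∈ K, σ g ∈ K) → ∀ v ∈ A, (∀ h ∈ K, σ h = h → ρ h v - v ∈ B) →
      ∃ w ∈ A, (∀ g ∈ K, ρ g w = w) ∧ v - w ∈ B) :
    IsAdmissible (subquot (ρ.comp (fixedPts σ).subtype) A B hA hB) := by
  have hp0 : 0 < p := (Fact.out : p.Prime).pos
  constructor
  · intro x
    obtain ⟨a, rfl⟩ := Submodule.Quotient.mk_surjective _ x
    have h1 : IsOpen ((stab (ρ.comp (fixedPts σ).subtype) (a : V) : Subgroup (fixedPts σ)) :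
        Set (fixedPts σ)) := by
      exact (hρ.1 (a : V)).preimage continuous_subtype_val
    refine Subgroup.isOpen_mono (H₂ := stab (subquot (ρ.comp (fixedPts σ).subtype) A B hA hB)
      (Submodule.Quotient.mk a)) ?_ h1
    intro h hh
    rw [mem_stab] at hh ⊢
    change Submodule.Quotient.mk _ = Submodule.Quotient.mk a
    congr 1
    exact Subtype.ext hh
  · intro KH hKHo hKHc
    obtain ⟨O, hO, hO2⟩ := isOpen_induced_iff.1 hKHo
    have h1O : O ∈ 𝓝 (1 : G) := by
      refine hO.mem_nhds ?_
      have : (1 : fixedPts σ) ∈ (Subtype.val : fixedPts σ → G) ⁻¹' O := by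
        rw [hO2]
        exact KH.one_mem
      exact this
    obtain ⟨U, hU⟩ := NonarchimedeanGroup.is_nonarchimedean _ h1O
    obtain ⟨K, hKdef⟩ : ∃ K : Subgroup G, K = core σ (U.toSubgroup ⊓ K₀) := ⟨_, rfl⟩
    have hKo' : IsOpen (K : Set G) := by
      rw [hKdef]
      exact core_open hp0 hc hσ (U.isOpen.inter hKo)
    have hKK₀ : K ≤ K₀ := by rw [hKdef]; exact (core_le _ _).trans inf_le_right
    have hKU : (K : Set G) ⊆ O := by
      rw [hKdef]
      exact fun g hg => hU (core_le _ _ hg).1
    have hKc' : IsCompact (K : Set G) :=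
      hKc.of_isClosed_subset (Subgroup.isClosed_of_isOpen K hKo') hKK₀
    have hKσ : ∀ g ∈ K, σ g ∈ K := by
      rw [hKdef]
      exact fun g hg => core_stable hg
    have hfd : FiniteDimensional k (Representation.invariants (ρ.comp K.subtype)) :=
      hρ.2 K hKo' hKc'
    obtain ⟨E, hE⟩ : ∃ E : Submodule k A,
      E = (Representation.invariants (ρ.comp K.subtype)).comap A.subtype := ⟨_, rfl⟩
    have hEfd : FiniteDimensional k E := by
      rw [hE]
      let f : ((Representation.invariants (ρ.comp K.subtype)).comap A.subtype) →ₗ[k]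
          (Representation.invariants (ρ.comp K.subtype)) :=
        (A.subtype.comp (Submodule.subtype _)).codRestrict _ (fun x => x.2)
      refine FiniteDimensional.of_injective f ?_
      intro x y hxy
      have h2' : (f x : V) = (f y : V) := congrArg Subtype.val hxy
      have h2 : ((x : A) : V) = ((y : A) : V) := h2'
      exact Subtype.ext (Subtype.ext h2)
    have hEfd2 : FiniteDimensional k (E.map (B.comap A.subtype).mkQ) := inferInstance
    refine Submodule.finiteDimensional_of_le (S₂ := E.map (B.comap A.subtype).mkQ) ?_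
    intro x hx
    obtain ⟨a, rfl⟩ := Submodule.Quotient.mk_surjective _ x
    rw [Representation.mem_invariants] at hx
    obtain ⟨w, hwA, hwK, hwB⟩ := key K (hK.mono hKo' hKK₀) hKo' hKc' hKσ (a : V) a.2 (by
      intro h hhK hhσ
      have hmem : (⟨h, hhσ⟩ : fixedPts σ) ∈ KH := by
        have : (⟨h, hhσ⟩ : fixedPts σ) ∈ (Subtype.val : fixedPts σ → G) ⁻¹' O := hKU hhK
        rw [hO2] at this
        exact this
      have h3 := hx ⟨⟨h, hhσ⟩, hmem⟩
      have h4 : Submodule.Quotient.mk (p := B.comap A.subtype)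
          (⟨ρ h a, hA ⟨h, hhσ⟩ a.2⟩ : A) = Submodule.Quotient.mk a := h3
      rw [Submodule.Quotient.eq] at h4
      exact h4)
    refine ⟨⟨w, hwA⟩, ?_, ?_⟩
    · rw [hE, SetLike.mem_coe, Submodule.mem_comap, Representation.mem_invariants]
      intro g
      exact hwK g g.2
    · rw [Submodule.mkQ_apply, eq_comm, Submodule.Quotient.eq]
      exact hwB

lemma nrm_sub_self {p : ℕ} {S : V →ₗ[k] V} {v : V} (hv : S v = v) : nrm p S v = (p : k) • v := by
  unfold nrm
  rw [LinearMap.sum_apply]
  have h : ∀ i, (S ^ i) v = v := by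
    intro i
    induction i with
    | zero => rfl
    | succ i ih => rw [pow_succ', Module.End.mul_apply, ih, hv]
  rw [Finset.sum_congr rfl fun i _ => h i, Finset.sum_const, Finset.card_range,
    Nat.cast_smul_eq_nsmul]

/-- The main theorem for a general locally profinite group with an open compact subgroup of
pro-order prime to `p`. -/
theorem general {p : ℕ} [Fact p.Prime] [CharP k p] {σ : G →* G} (hc : Continuous σ)
    (hσ : ∀ g, σ^[p] g = g) {K₀ : Subgroup G} (hK : ProPrimeTo p K₀)
    (hKo : IsOpen (K₀ : Set G)) (hKc : IsCompact (K₀ : Set G)) (hρ : IsAdmissible ρ)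
    (S : V →ₗ[k] V) (hSp : S ^ p = 1) (hS : ∀ g v, S (ρ g v) = ρ (σ g) (S v)) :
    IsAdmissible (tate0 ρ σ p S hS) ∧ IsAdmissible (tate1 ρ σ p S hS) := by
  have hp0 : 0 < p := (Fact.out : p.Prime).pos
  constructor
  · refine subquot_admissible hc hσ hK hKo hKc hρ _ _ _ _ ?_
    intro K hK1 hK2 hK3 hK4 v hv hfix
    have hv' : S v = v := by
      rw [LinearMap.mem_ker, LinearMap.sub_apply, Module.End.one_apply, sub_eq_zero] at hv
      exact hv.symm
    have hvi : ∀ i, (S ^ i) v = v := by
      intro i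
      induction i with
      | zero => rfl
      | succ i ih => rw [pow_succ', Module.End.mul_apply, ih, hv']
    obtain ⟨w, hw1, hw2, hw3, -⟩ := average hc hσ hK1 hK2 hK3 hK4 hS (hρ.1 v) _ hfix (by
      intro g
      refine ⟨v - ρ g v, ?_⟩
      unfold nrm
      rw [LinearMap.sum_apply]
      refine Finset.sum_congr rfl fun i _ => ?_
      rw [map_sub, pow_comm hS, hvi])
    refine ⟨w, ?_, hw1, hw2⟩
    rw [LinearMap.mem_ker, LinearMap.sub_apply, Module.End.one_apply, sub_eq_zero]
    exact (hw3 hv').symm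
  · refine subquot_admissible hc hσ hK hKo hKc hρ _ _ _ _ ?_
    intro K hK1 hK2 hK3 hK4 v hv hfix
    rw [LinearMap.mem_ker] at hv
    -- `S ^ i u ≡ u` modulo the range of `1 - S`
    have hmod : ∀ (i : ℕ) (u : V), u - (S ^ i) u ∈ LinearMap.range (1 - S) := by
      intro i u
      induction i with
      | zero =>
        rw [pow_zero, Module.End.one_apply, sub_self]
        exact Submodule.zero_mem _
      | succ i ih =>
        have e : u - (S ^ (i + 1)) u = (u - (S ^ i) u) + (1 - S) ((S ^ i) u) := by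
          rw [pow_succ', Module.End.mul_apply, LinearMap.sub_apply, Module.End.one_apply]
          abel
        rw [e]
        exact Submodule.add_mem _ ih ⟨_, rfl⟩
    obtain ⟨w, hw1, hw2, -, hw3⟩ := average hc hσ hK1 hK2 hK3 hK4 hS (hρ.1 v) _ hfix (by
      intro g
      -- σ^i g v = S^i (g (S^{p-i} v))
      have h1 : ∀ i ∈ Finset.range p, ρ (σ^[i] g) v = (S ^ i) (ρ g ((S ^ (p - i)) v)) := by
        intro i hi
        rw [Finset.mem_range] at hi
        rw [pow_comm hS, ← Module.End.mul_apply (S ^ i), ← pow_add, show i + (p - i) = p by omega,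
          hSp, Module.End.one_apply]
      have h2 : ∑ i ∈ Finset.range p, (S ^ (p - i)) v = 0 := by
        have h3 : ∑ i ∈ Finset.range p, (S ^ (p - i)) v = S (nrm p S v) := by
          unfold nrm
          rw [LinearMap.sum_apply, map_sum, ← Finset.sum_range_reflect]
          refine Finset.sum_congr rfl fun i hi => ?_
          rw [Finset.mem_range] at hi
          rw [show p - (p - 1 - i) = i + 1 by omega, pow_succ', Module.End.mul_apply]
        rw [h3, hv, map_zero]
      have h4 : ∑ i ∈ Finset.range p, (v - ρ (σ^[i] g) v) =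
          ∑ i ∈ Finset.range p, (ρ g ((S ^ (p - i)) v) - (S ^ i) (ρ g ((S ^ (p - i)) v))) := by
        rw [Finset.sum_sub_distrib, Finset.sum_sub_distrib, Finset.sum_congr rfl h1,
          Finset.sum_const, Finset.card_range, ← map_sum, h2, map_zero,
          ← Nat.cast_smul_eq_nsmul k, CharP.cast_eq_zero, zero_smul]
      rw [h4]
      exact Submodule.sum_mem _ fun i _ => hmod i _)
    exact ⟨w, hw3 hv, hw1, hw2⟩

end General

end Pool.Agent.K3h25.Tate
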