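import Pool.Agent.K3h25.Tate2

set_option autoImplicit false
open Topology Set Filter

namespace Pool.Agent.K3h25.Tate

/-! ### pro-order -/

section ProOrder

variable {G : Type*} [Group G] [TopologicalSpace G] [IsTopologicalGroup G]

lemma proPrimeTo_of_pow {ℓ p : ℕ} [Fact ℓ.Prime] [Fact p.Prime] (hℓp : ℓ ≠ p) {K : Subgroup G}
    (hKc : IsCompact (K : Set G))
    (hpow : ∀ g ∈ K, ∀ U : Set G, U ∈ 𝓝 (1 : G) → ∃ m : ℕ, g ^ (ℓ ^ m) ∈ U) :
    ProPrimeTo p K := by
  intro W hW hWK hdvd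
  have : CompactSpace K := isCompact_iff_compactSpace.1 hKc
  have hWo : IsOpen ((W.subgroupOf K : Subgroup K) : Set K) := hW.preimage continuous_subtype_val
  have hfi : (W.subgroupOf K).FiniteIndex := by
    have : Finite (K ⧸ W.subgroupOf K) := Subgroup.quotient_finite_of_isOpen _ hWo
    exact Subgroup.finiteIndex_of_finite_quotient
  have hN : ((W.subgroupOf K).normalCore).FiniteIndex := inferInstance
  have hNo : IsOpen (((W.subgroupOf K).normalCore : Subgroup K) : Set K) :=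
    Subgroup.isOpen_of_isClosed_of_finiteIndex _
      (Subgroup.normalCore_isClosed _ (Subgroup.isClosed_of_isOpen _ hWo))
  have hfin : Finite (K ⧸ (W.subgroupOf K).normalCore) := inferInstance
  -- every element of the quotient has order a power of ℓ
  have hdvd2 : p ∣ Nat.card (K ⧸ (W.subgroupOf K).normalCore) := by
    refine hdvd.trans ?_
    have := Subgroup.index_dvd_of_le (Subgroup.normalCore_le (W.subgroupOf K))
    exact this
  obtain ⟨x, hx⟩ := exists_prime_orderOf_dvd_card' p hdvd2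
  obtain ⟨g, rfl⟩ := QuotientGroup.mk_surjective x
  have hU : (fun x : K => x) ⁻¹' (((W.subgroupOf K).normalCore : Subgroup K) : Set K) ∈
      𝓝 (1 : K) := hNo.mem_nhds (Subgroup.one_mem _)
  rw [nhds_subtype_eq_comap, mem_comap] at hU
  obtain ⟨t, ht, ht2⟩ := hU
  obtain ⟨m, hm⟩ := hpow g g.2 t ht
  have hm2 : g ^ (ℓ ^ m) ∈ (W.subgroupOf K).normalCore := by
    apply ht2
    simpa using hm
  have h3 : ((QuotientGroup.mk g : K ⧸ (W.subgroupOf K).normalCore)) ^ (ℓ ^ m) = 1 := by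
    rw [← QuotientGroup.mk_pow]
    exact (QuotientGroup.eq_one_iff _).2 hm2
  have h4 := orderOf_dvd_of_pow_eq_one h3
  rw [hx] at h4
  have h5 := (Fact.out : p.Prime).dvd_of_dvd_pow h4
  rw [Nat.prime_dvd_prime_iff_eq Fact.out Fact.out] at h5
  exact hℓp h5.symm

end ProOrder

/-! ### congruence subgroups -/

section Congruence

variable {F : Type*} [NontriviallyNormedField F] {n : ℕ}

/-- the matrices with all entries at most `r` -/
def mball (F : Type*) [NontriviallyNormedField F] (n : ℕ) (r : ℝ) :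
    Set (Matrix (Fin n) (Fin n) F) := {A | ∀ i j, ‖A i j‖ ≤ r}

lemma mball_eq (r : ℝ) : mball F n r =
    Set.pi univ fun _ => Set.pi univ fun _ => Metric.closedBall (0 : F) r := by
  ext A
  constructor
  · intro h i _ j _
    exact mem_closedBall_zero_iff.2 (h i j)
  · intro h i j
    exact mem_closedBall_zero_iff.1 (h i (mem_univ i) j (mem_univ j))

lemma mball_compact [ProperSpace F] (r : ℝ) : IsCompact (mball F n r) := by
  rw [mball_eq]
  exact isCompact_univ_pi fun _ => isCompact_univ_pi fun _ => isCompact_closedBall _ _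

lemma mball_open [IsUltrametricDist F] {r : ℝ} (hr : r ≠ 0) : IsOpen (mball F n r) := by
  rw [mball_eq]
  exact isOpen_set_pi finite_univ fun _ _ => isOpen_set_pi finite_univ fun _ _ =>
    IsUltrametricDist.isOpen_closedBall _ hr

lemma mball_mul [IsUltrametricDist F] {r s : ℝ} (hr : 0 ≤ r) (hs : 0 ≤ s)
    {A B : Matrix (Fin n) (Fin n) F} (hA : A ∈ mball F n r) (hB : B ∈ mball F n s) :
    A * B ∈ mball F n (r * s) := by
  intro i j
  rw [Matrix.mul_apply]
  refine IsUltrametricDist.norm_sum_le_of_forall_le_of_nonneg (by positivity) fun k _ => ?_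
  rw [norm_mul]
  exact mul_le_mul (hA i k) (hB k j) (norm_nonneg _) hr

lemma mball_add [IsUltrametricDist F] {r : ℝ}
    {A B : Matrix (Fin n) (Fin n) F} (hA : A ∈ mball F n r) (hB : B ∈ mball F n r) :
    A + B ∈ mball F n r := by
  intro i j
  rw [Matrix.add_apply]
  exact (IsUltrametricDist.norm_add_le_max _ _).trans (max_le (hA i j) (hB i j))

lemma mball_mono {r s : ℝ} (h : r ≤ s) : mball F n r ⊆ mball F n s :=
  fun _ hA i j => (hA i j).trans h

lemma mball_pow [IsUltrametricDist F] {r : ℝ} (hr : 0 ≤ r)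
    {A : Matrix (Fin n) (Fin n) F} (hA : A ∈ mball F n r) (m : ℕ) :
    A ^ (m + 1) ∈ mball F n (r ^ (m + 1)) := by
  induction m with
  | zero => simpa using hA
  | succ m ih =>
    rw [pow_succ, pow_succ r]
    exact mball_mul (by positivity) hr ih hA

/-- the congruence subgroup of level `r` -/
def cong (F : Type*) [NontriviallyNormedField F] [IsUltrametricDist F] (n : ℕ) (r : ℝ)
    (hr : 0 < r) (hr1 : r < 1) : Subgroup (GL (Fin n) F) where
  carrier := {g | (g : Matrix (Fin n) (Fin n) F) - 1 ∈ mball F n r ∧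
    ((g⁻¹ : GL (Fin n) F) : Matrix (Fin n) (Fin n) F) - 1 ∈ mball F n r}
  mul_mem' := by
    have key : ∀ A B : Matrix (Fin n) (Fin n) F, A - 1 ∈ mball F n r → B - 1 ∈ mball F n r →
        A * B - 1 ∈ mball F n r := by
      intro A B hA hB
      have e : A * B - 1 = (A - 1) * (B - 1) + (A - 1) + (B - 1) := by noncomm_ring
      rw [e]
      refine mball_add (mball_add ?_ hA) hB
      exact mball_mono (by nlinarith) (mball_mul hr.le hr.le hA hB)
    rintro a b ⟨ha1, ha2⟩ ⟨hb1, hb2⟩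
    refine ⟨?_, ?_⟩
    · rw [Units.val_mul]
      exact key _ _ ha1 hb1
    · rw [mul_inv_rev, Units.val_mul]
      exact key _ _ hb2 ha2
  one_mem' := by
    have h0 : (0 : Matrix (Fin n) (Fin n) F) ∈ mball F n r := fun i j => by simpa using hr.le
    refine ⟨by simpa using h0, by simpa using h0⟩
  inv_mem' := by
    rintro a ⟨ha1, ha2⟩
    exact ⟨ha2, by rwa [inv_inv]⟩

lemma mem_cong [IsUltrametricDist F] {r : ℝ} {hr : 0 < r} {hr1 : r < 1} {g : GL (Fin n) F} :
    g ∈ cong F n r hr hr1 ↔ (g : Matrix (Fin n) (Fin n) F) - 1 ∈ mball F n r ∧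
    ((g⁻¹ : GL (Fin n) F) : Matrix (Fin n) (Fin n) F) - 1 ∈ mball F n r := Iff.rfl

lemma cong_eq [IsUltrametricDist F] {r : ℝ} (hr : 0 < r) (hr1 : r < 1) :
    ((cong F n r hr hr1 : Subgroup (GL (Fin n) F)) : Set (GL (Fin n) F)) =
    (Units.embedProduct (Matrix (Fin n) (Fin n) F)) ⁻¹'
      (((fun A => A - 1) ⁻¹' mball F n r) ×ˢ
      (MulOpposite.unop ⁻¹' ((fun A => A - 1) ⁻¹' mball F n r))) := rfl

lemma cong_open [IsUltrametricDist F] {r : ℝ} (hr : 0 < r) (hr1 : r < 1) :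
    IsOpen ((cong F n r hr hr1 : Subgroup (GL (Fin n) F)) : Set (GL (Fin n) F)) := by
  rw [cong_eq]
  have h1 : IsOpen ((fun A : Matrix (Fin n) (Fin n) F => A - 1) ⁻¹' mball F n r) :=
    (mball_open hr.ne').preimage (by fun_prop)
  exact (h1.prod (h1.preimage MulOpposite.continuous_unop)).preimage
    Units.continuous_embedProduct

lemma cong_compact [IsUltrametricDist F] [ProperSpace F] {r : ℝ} (hr : 0 < r) (hr1 : r < 1) :
    IsCompact ((cong F n r hr hr1 : Subgroup (GL (Fin n) F)) : Set (GL (Fin n) F)) := by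
  rw [cong_eq]
  have h1 : IsCompact ((fun A : Matrix (Fin n) (Fin n) F => A - 1) ⁻¹' mball F n r) := by
    have h2 : (fun A : Matrix (Fin n) (Fin n) F => A - 1) ⁻¹' mball F n r =
        (fun A => A + 1) '' mball F n r := by
      ext A
      constructor
      · intro h
        exact ⟨A - 1, h, by simp⟩
      · rintro ⟨B, hB, rfl⟩
        simpa using hB
    rw [h2]
    exact (mball_compact r).image (by fun_prop)
  refine Units.isClosedEmbedding_embedProduct.isCompact_preimage (h1.prod ?_)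
  have h3 : MulOpposite.unop ⁻¹' ((fun A : Matrix (Fin n) (Fin n) F => A - 1) ⁻¹' mball F n r) =
      MulOpposite.op '' ((fun A : Matrix (Fin n) (Fin n) F => A - 1) ⁻¹' mball F n r) := by
    ext x
    constructor
    · intro hx
      exact ⟨MulOpposite.unop x, hx, MulOpposite.op_unop x⟩
    · rintro ⟨y, hy, rfl⟩
      exact hy
  rw [h3]
  exact h1.image MulOpposite.continuous_op

open scoped Matrix.Norms.Elementwise in
lemma exists_mball_of_nhds {U : Set (Matrix (Fin n) (Fin n) F)} (hU : U ∈ 𝓝 1) :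
    ∃ r : ℝ, 0 < r ∧ ∀ A : Matrix (Fin n) (Fin n) F, A - 1 ∈ mball F n r → A ∈ U := by
  obtain ⟨r, hr, h⟩ := Metric.nhds_basis_closedBall.mem_iff.1 hU
  refine ⟨r, hr, fun A hA => h ?_⟩
  rw [mem_closedBall_iff_norm, Matrix.norm_le_iff hr.le]
  exact hA

lemma exists_cong_of_nhds [IsUltrametricDist F] {U : Set (GL (Fin n) F)} (hU : U ∈ 𝓝 1) :
    ∃ (r : ℝ) (hr : 0 < r) (hr1 : r < 1),
      ((cong F n r hr hr1 : Subgroup (GL (Fin n) F)) : Set (GL (Fin n) F)) ⊆ U := by
  rw [Units.isEmbedding_embedProduct.nhds_eq_comap, mem_comap] at hU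
  obtain ⟨t, ht, htU⟩ := hU
  rw [map_one, Prod.one_eq_mk, mem_nhds_prod_iff] at ht
  obtain ⟨u, hu, v, hv, huv⟩ := ht
  obtain ⟨r1, hr1, h1⟩ := exists_mball_of_nhds hu
  have hv2 : MulOpposite.op ⁻¹' v ∈ 𝓝 (1 : Matrix (Fin n) (Fin n) F) :=
    MulOpposite.continuous_op.continuousAt.preimage_mem_nhds hv
  obtain ⟨r2, hr2, h2⟩ := exists_mball_of_nhds hv2
  refine ⟨min (min r1 r2) (1 / 2), by positivity, ?_, ?_⟩
  · exact (min_le_right _ _).trans_lt (by norm_num)
  · intro g hg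
    apply htU
    apply huv
    refine ⟨h1 _ (mball_mono ?_ hg.1), h2 _ (mball_mono ?_ hg.2)⟩
    · exact (min_le_left _ _).trans (min_le_left _ _)
    · exact (min_le_left _ _).trans (min_le_right _ _)

lemma cong_pow [IsUltrametricDist F] {ℓ : ℕ} [Fact ℓ.Prime] [CharP F ℓ] {r : ℝ} {hr : 0 < r}
    {hr1 : r < 1} {g : GL (Fin n) F} (hg : g ∈ cong F n r hr hr1) {s : ℝ} (hs : 0 < s)
    (hs1 : s < 1) : ∃ m : ℕ, g ^ (ℓ ^ m) ∈ cong F n s hs hs1 := by
  obtain ⟨N, hN⟩ := exists_pow_lt_of_lt_one hs hr1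
  have hℓ2 : 2 ≤ ℓ := (Fact.out : ℓ.Prime).two_le
  have hN2 : r ^ (ℓ ^ N) ≤ s := by
    refine le_trans (pow_le_pow_of_le_one hr.le hr1.le ?_) hN.le
    exact (Nat.lt_pow_self (by omega)).le
  rcases Nat.eq_zero_or_pos n with rfl | hn
  · refine ⟨0, ?_, ?_⟩
    · intro i; exact i.elim0
    · intro i; exact i.elim0
  have : NeZero n := ⟨hn.ne'⟩
  have : Nonempty (Fin n) := ⟨0⟩
  have : CharP (Matrix (Fin n) (Fin n) F) ℓ := inferInstance
  have key : ∀ A : Matrix (Fin n) (Fin n) F, A - 1 ∈ mball F n r →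
      A ^ (ℓ ^ N) - 1 ∈ mball F n s := by
    intro A hA
    have e : A ^ (ℓ ^ N) = (A - 1) ^ (ℓ ^ N) + 1 := by
      have h1 := add_pow_char_pow_of_commute ℓ N (Commute.one_right (A - 1))
      rw [sub_add_cancel, one_pow] at h1
      exact h1
    rw [e, add_sub_cancel_right]
    obtain ⟨M, hM⟩ : ∃ M, ℓ ^ N = M + 1 := ⟨ℓ ^ N - 1, by
      have : 0 < ℓ ^ N := by positivity
      omega⟩
    rw [hM] at hN2 ⊢
    exact mball_mono hN2 (mball_pow hr.le hA M)
  refine ⟨N, ?_, ?_⟩
  · rw [Units.val_pow_eq_pow_val]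
    exact key _ hg.1
  · rw [← inv_pow, Units.val_pow_eq_pow_val]
    exact key _ hg.2

end Congruence

/-- The theorem for closed subgroups of `GL n F`. -/
theorem main {F : Type*} [NontriviallyNormedField F] [LocallyCompactSpace F] (ℓ : ℕ)
    [Fact ℓ.Prime] [CharP F ℓ] (p : ℕ) [Fact p.Prime] (hℓp : ℓ ≠ p) {k : Type*} [Field k]
    [CharP k p] {n : ℕ} (G : Subgroup (GL (Fin n) F)) (hG : IsClosed (G : Set (GL (Fin n) F)))
    (σ : G →* G) (hσc : Continuous σ) (hσp : ∀ g, σ^[p] g = g)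
    {V : Type*} [AddCommGroup V] [Module k V] (ρ : Representation k G V) (hρ : IsAdmissible ρ)
    (S : V →ₗ[k] V) (hSp : S ^ p = 1) (hS : ∀ g v, S (ρ g v) = ρ (σ g) (S v)) :
    IsAdmissible (tate0 ρ σ p S hS) ∧ IsAdmissible (tate1 ρ σ p S hS) := by
  have hu : IsUltrametricDist F := by
    refine IsUltrametricDist.isUltrametricDist_of_forall_norm_natCast_le_one fun m => ?_
    have h1 : (m : F) ^ ℓ = m := by
      have h2 : ((m : ZMod ℓ)) ^ ℓ = m := ZMod.pow_card _
      have h3 := congrArg (ZMod.castHom (dvd_refl ℓ) F) h2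
      rwa [map_pow, map_natCast] at h3
    by_contra hlt
    push Not at hlt
    have h4 : ‖(m : F)‖ ^ ℓ = ‖(m : F)‖ := by rw [← norm_pow, h1]
    have h5 : ‖(m : F)‖ ^ 1 < ‖(m : F)‖ ^ ℓ :=
      pow_lt_pow_right₀ hlt (Fact.out : ℓ.Prime).one_lt
    rw [h4, pow_one] at h5
    exact lt_irrefl _ h5
  have : ProperSpace F := ProperSpace.of_locallyCompactSpace F
  have hnon : NonarchimedeanGroup G := by
    refine ⟨fun U hU => ?_⟩
    rw [nhds_subtype_eq_comap, mem_comap] at hU
    obtain ⟨t, ht, htU⟩ := hU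
    obtain ⟨r, hr, hr1, h⟩ := exists_cong_of_nhds ht
    refine ⟨⟨(cong F n r hr hr1).subgroupOf G, (cong_open hr hr1).preimage
      continuous_subtype_val⟩, ?_⟩
    intro g hg
    exact htU (h hg)
  have hr : (0 : ℝ) < 1 / 2 := by norm_num
  have hr1 : (1 / 2 : ℝ) < 1 := by norm_num
  have hKc : IsCompact (((cong F n (1 / 2) hr hr1).subgroupOf G : Subgroup G) : Set G) :=
    hG.isClosedEmbedding_subtypeVal.isCompact_preimage (cong_compact hr hr1)
  have hKo : IsOpen (((cong F n (1 / 2) hr hr1).subgroupOf G : Subgroup G) : Set G) :=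
    (cong_open hr hr1).preimage continuous_subtype_val
  refine general hσc hσp (proPrimeTo_of_pow hℓp hKc ?_) hKo hKc hρ S hSp hS
  intro g hg U hU
  rw [nhds_subtype_eq_comap, mem_comap] at hU
  obtain ⟨t, ht, htU⟩ := hU
  obtain ⟨s, hs, hs1, h⟩ := exists_cong_of_nhds ht
  obtain ⟨m, hm⟩ := cong_pow (ℓ := ℓ) (hr := hr) (hr1 := hr1) hg hs hs1
  exact ⟨m, htU (h (by simpa using hm))⟩

end Pool.Agent.K3h25.Tate
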